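import Pool.Agent.Lib.MP_2a816b_nt.LM.Taylor

/-!
# Coefficients of a function with one simple pole
-/

open Set Filter Topology MeasureTheory Complex Metric

namespace Pool.Agent.Lib.MP_2a816b_nt.LM

/-- `Φ = (z - w) M` analytic in a disc that contains `w`: `w^(n+1) a_n → -Φ(w)` with an explicit rate. -/
theorem coeff_bound {M Φ : ℂ → ℂ} {a : ℕ → ℂ} {c w : ℂ} {δ r r' B : ℝ} (hδ : 0 < δ) (hr : ‖w‖ < r) (hrr : r < r')
    (hB : 0 ≤ B) (ha : ∀ z : ℂ, ‖z‖ < δ → HasSum (fun n => a n * z ^ n) (M (c + z)))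
    (hΦ : DifferentiableOn ℂ Φ (ball c r')) (hBd : ∀ z ∈ sphere c r, ‖Φ z‖ ≤ B)
    (hM : ∀ z : ℂ, ‖z‖ < δ → Φ (c + z) = (z - w) * M (c + z)) (n : ℕ) :
    ‖w ^ (n + 1) * a n + Φ (c + w)‖ ≤ B * (‖w‖ / r) ^ (n + 1) / (1 - ‖w‖ / r) := by
  have hr0 : 0 < r := lt_of_le_of_lt (norm_nonneg w) hr
  set β : ℕ → ℂ := fun n => (n.factorial : ℂ)⁻¹ * iteratedDeriv n Φ c with hβ
  have hβs : ∀ z : ℂ, ‖z‖ < r' → HasSum (fun n => β n * z ^ n) (Φ (c + z)) := by
    intro z hz
    have h1 := Complex.hasSum_taylorSeries_on_ball hΦ (z := c + z) (by simpa [mem_ball, dist_eq_norm] using hz)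
    rw [add_sub_cancel_left] at h1
    refine (funext fun n => ?_ : (fun n => β n * z ^ n) = _) ▸ h1
    simp only [hβ, smul_eq_mul]
    ring
  have hβn : ∀ n, ‖β n‖ ≤ B * r⁻¹ ^ n := by
    intro n
    have hdc : DiffContOnCl ℂ Φ (ball c r) := by
      apply DifferentiableOn.diffContOnCl
      rw [closure_ball c hr0.ne']
      exact hΦ.mono (closedBall_subset_ball hrr)
    have h1 := Complex.norm_iteratedDeriv_le_of_forall_mem_sphere_norm_le n hr0 hdc hBd
    rw [hβ]
    simp only [norm_mul, norm_inv, Complex.norm_natCast]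
    calc (n.factorial : ℝ)⁻¹ * ‖iteratedDeriv n Φ c‖ ≤ (n.factorial : ℝ)⁻¹ * (n.factorial * B / r ^ n) := by gcongr
      _ = B * r⁻¹ ^ n := by
          rw [inv_pow]
          field_simp
  -- the recursion
  set γ : ℕ → ℂ := fun n => (match n with | 0 => 0 | k + 1 => a k) - w * a n with hγ
  have hγs : ∀ z : ℂ, ‖z‖ < δ → HasSum (fun n => γ n * z ^ n) (Φ (c + z)) := by
    intro z hz
    have h1 := ha z hz
    have h2 : HasSum (fun n => (match n with | 0 => (0 : ℂ) | k + 1 => a k) * z ^ n) (z * M (c + z)) := by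
      rw [← hasSum_nat_add_iff' 1]
      simp only [Finset.range_one, Finset.sum_singleton, zero_mul, sub_zero]
      have h2 := h1.mul_left z
      have e : (fun n => a n * z ^ (n + 1)) = fun n => z * (a n * z ^ n) := by
        funext n
        rw [pow_succ]
        ring
      rw [e]
      exact h2
    have h3 := h2.sub (h1.mul_left w)
    rw [hM z hz, sub_mul]
    refine (funext fun n => ?_ : (fun n => γ n * z ^ n) = _) ▸ h3
    simp only [hγ]
    ring
  have hβγ : β = γ := coeff_unique (δ := min δ r') (lt_min hδ (hr0.trans hrr))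
    (g := fun z => Φ (c + z)) (fun z hz => hβs z (hz.trans_le (min_le_right _ _)))
    (fun z hz => hγs z (hz.trans_le (min_le_left _ _)))
  have htel : ∀ n, w ^ (n + 1) * a n = -∑ k ∈ Finset.range (n + 1), β k * w ^ k := by
    intro n
    induction n with
    | zero =>
        rw [hβγ]
        simp [hγ]
    | succ n ih =>
        rw [Finset.sum_range_succ, neg_add, ← ih, hβγ]
        simp only [hγ]
        ring
  have hΦw := hβs w (hr.trans hrr)
  have htail := (hasSum_nat_add_iff' (n + 1)).2 hΦw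
  have e : w ^ (n + 1) * a n + Φ (c + w) = Φ (c + w) - ∑ k ∈ Finset.range (n + 1), β k * w ^ k := by
    rw [htel]; ring
  rw [e, ← htail.tsum_eq]
  have hq : ‖w‖ / r < 1 := (div_lt_one hr0).2 hr
  have hq0 : 0 ≤ ‖w‖ / r := by positivity
  have hgeo : HasSum (fun k : ℕ => B * (‖w‖ / r) ^ (n + 1) * (‖w‖ / r) ^ k) (B * (‖w‖ / r) ^ (n + 1) * (1 - ‖w‖ / r)⁻¹) :=
    (hasSum_geometric_of_lt_one hq0 hq).mul_left _
  refine (tsum_of_norm_bounded hgeo fun k => ?_).trans (le_of_eq (div_eq_mul_inv _ _).symm)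
  rw [norm_mul, norm_pow]
  calc ‖β (k + (n + 1))‖ * ‖w‖ ^ (k + (n + 1)) ≤ (B * r⁻¹ ^ (k + (n + 1))) * ‖w‖ ^ (k + (n + 1)) := by
        gcongr
        exact hβn _
    _ = _ := by
        rw [div_eq_mul_inv, mul_pow, mul_pow]
        ring

end Pool.Agent.Lib.MP_2a816b_nt.LM
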