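import Pool.Agent.Lib.MP_2a816b_nt.LM.Upper

/-!
# Long means of the normalised variance
-/

open Set Filter Topology MeasureTheory

namespace Pool.Agent.Lib.MP_2a816b_nt.LM

open Pool.Agent.Lib.MP_2a816b_nt.PV

theorem long_means {b : ℝ} (hb : 1 ≤ b) :
    (∀ η : ℝ, 0 < η → ∃ l0 : ℝ, 0 < l0 ∧ ∀ l : ℝ, l0 ≤ l → ∀ᶠ T : ℝ in atTop, 1 - η ≤ MM b l T) ∧
    (RiemannHypothesis → ∀ η : ℝ, 0 < η → ∃ l0 : ℝ, 0 < l0 ∧ ∀ l : ℝ, l0 ≤ l → ∀ᶠ T : ℝ in atTop,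
      MM b l T ≤ 4 / 3 + η) ∧
    (¬ RiemannHypothesis → ∀ K : ℝ, ∃ l0 : ℝ, 0 < l0 ∧ ∀ l : ℝ, l0 ≤ l → ∀ᶠ T : ℝ in atTop, T ^ K ≤ MM b l T) :=
  ⟨fun _ hη => lower hb hη, fun hRH _ hη => upper_true hRH hb hη, fun h K => lower_false h hb K⟩

end Pool.Agent.Lib.MP_2a816b_nt.LM
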