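import Pool.Agent.Lib.MP_2a816b_nt.LM.Coeff

/-!
# A centre with a unique nearest zero; the logarithmic derivative
-/

open Set Filter Topology MeasureTheory Complex Metric

namespace Pool.Agent.Lib.MP_2a816b_nt.LM

theorem strict_conv (y u : ℂ) (t : ℝ) :
    ‖y - t * u‖ ^ 2 = (1 - t) * ‖y‖ ^ 2 - t * (1 - t) * ‖u‖ ^ 2 + t * ‖y - u‖ ^ 2 := by
  simp only [← Complex.normSq_eq_norm_sq, Complex.normSq_apply, Complex.sub_re, Complex.sub_im, Complex.mul_re,
    Complex.mul_im, Complex.ofReal_re, Complex.ofReal_im]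
  ring

/-- moving the centre towards a nearest zero makes it the only nearest zero -/
theorem unique_nearest {Z : ℂ → ℂ} {c0 ρ0 : ℂ} {R ε : ℝ} (hε : 0 < ε) (hZ : DifferentiableOn ℂ Z (ball c0 R))
    (hc : Z c0 ≠ 0) (hρ : Z ρ0 = 0) (hR : ‖ρ0 - c0‖ < R) :
    ∃ c1 ρ1 : ℂ, ∃ r : ℝ, ‖c1 - c0‖ < ε ∧ Z ρ1 = 0 ∧ 0 < ‖ρ1 - c1‖ ∧ ‖ρ1 - c1‖ < r ∧ ball c1 r ⊆ ball c0 R ∧
      ‖c1 - c0‖ + ‖ρ1 - c1‖ ≤ ‖ρ0 - c0‖ ∧ ∀ z ∈ ball c1 r, Z z = 0 → z = ρ1 := by
  set d0 : ℝ := ‖ρ0 - c0‖ with hd0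
  have hZc : ContinuousOn Z (closedBall c0 d0) := hZ.continuousOn.mono (closedBall_subset_ball hR)
  have hK : IsCompact (closedBall c0 d0 ∩ Z ⁻¹' {0}) := by
    have h1 := hZc.preimage_isClosed_of_isClosed isClosed_closedBall isClosed_singleton (t := {0})
    exact (isCompact_closedBall c0 d0).of_isClosed_subset h1 inter_subset_left
  have hKn : (closedBall c0 d0 ∩ Z ⁻¹' {0}).Nonempty := by
    refine ⟨ρ0, ?_, hρ⟩
    rw [mem_closedBall, dist_eq_norm]
  obtain ⟨ρ1, ⟨hρ1b, hρ1z⟩, hmin⟩ := hK.exists_isMinOn hKn (f := fun z => ‖z - c0‖) (by fun_prop)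
  have hρ1z' : Z ρ1 = 0 := hρ1z
  rw [mem_closedBall, dist_eq_norm] at hρ1b
  set d1 : ℝ := ‖ρ1 - c0‖ with hd1
  have hd1R : d1 < R := lt_of_le_of_lt hρ1b hR
  have hne : ρ1 ≠ c0 := by
    rintro rfl
    exact hc hρ1z'
  have hd1p : 0 < d1 := by
    rw [hd1, norm_pos_iff, sub_ne_zero]
    exact hne
  have hall : ∀ z ∈ ball c0 R, Z z = 0 → d1 ≤ ‖z - c0‖ := by
    intro z hz hz0
    rcases le_or_gt ‖z - c0‖ d0 with h | h
    · have hzK : z ∈ closedBall c0 d0 ∩ Z ⁻¹' {0} := ⟨by rw [mem_closedBall, dist_eq_norm]; exact h, hz0⟩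
      exact hmin hzK
    · linarith
  -- the zero is isolated
  have hZa : AnalyticOnNhd ℂ Z (ball c0 R) := hZ.analyticOnNhd isOpen_ball
  have hρ1m : ρ1 ∈ ball c0 R := by
    rw [mem_ball, dist_eq_norm]
    exact hd1R
  have hc0m : c0 ∈ ball c0 R := mem_ball_self (hd1p.trans hd1R)
  have hiso : ∀ᶠ z in 𝓝[≠] ρ1, Z z ≠ 0 := by
    rcases (hZa ρ1 hρ1m).eventually_eq_zero_or_eventually_ne_zero with h | h
    · exfalso
      exact hc (hZa.eqOn_zero_of_preconnected_of_eventuallyEq_zero (convex_ball c0 R).isPreconnected hρ1m h hc0m)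
    · exact h
  obtain ⟨s, hs0, hs⟩ : ∃ s : ℝ, 0 < s ∧ ∀ z, ‖z - ρ1‖ < s → z ≠ ρ1 → Z z ≠ 0 := by
    rw [eventually_nhdsWithin_iff, Metric.eventually_nhds_iff] at hiso
    obtain ⟨s, h1, h2⟩ := hiso
    exact ⟨s, h1, fun z hz hz' => h2 (by rw [dist_eq_norm]; exact hz) hz'⟩
  -- the shift
  set t : ℝ := min (1 / 2) (ε / (2 * d1)) with ht
  have ht0 : 0 < t := lt_min (by norm_num) (by positivity)
  have ht1 : t ≤ 1 / 2 := min_le_left _ _
  have htd : t * d1 ≤ ε / 2 := by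
    calc t * d1 ≤ ε / (2 * d1) * d1 := mul_le_mul_of_nonneg_right (min_le_right _ _) hd1p.le
      _ = ε / 2 := by field_simp
  set c1 : ℂ := c0 + t * (ρ1 - c0) with hc1
  have hc1c0 : ‖c1 - c0‖ = t * d1 := by
    rw [hc1, add_sub_cancel_left, norm_mul, Complex.norm_real, Real.norm_eq_abs, abs_of_pos ht0]
  have hc1ρ : ‖ρ1 - c1‖ = (1 - t) * d1 := by
    have : ρ1 - c1 = ((1 - t : ℝ) : ℂ) * (ρ1 - c0) := by
      rw [hc1]
      push_cast
      ring
    rw [this, norm_mul, Complex.norm_real, Real.norm_eq_abs, abs_of_pos (by linarith)]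
  set r : ℝ := min (Real.sqrt (((1 - t) * d1) ^ 2 + t * s ^ 2)) (R - t * d1) with hr
  have hrd : (1 - t) * d1 < r := by
    apply lt_min
    · apply Real.lt_sqrt_of_sq_lt
      have : 0 < t * s ^ 2 := by positivity
      linarith
    · linarith
  refine ⟨c1, ρ1, r, ?_, hρ1z', ?_, ?_, ?_, ?_, ?_⟩
  · rw [hc1c0]
    linarith
  · rw [hc1ρ]
    apply mul_pos (by linarith) hd1p
  · rw [hc1ρ]
    exact hrd
  · apply ball_subset_ball'
    rw [dist_eq_norm, hc1c0]
    have := min_le_right (Real.sqrt (((1 - t) * d1) ^ 2 + t * s ^ 2)) (R - t * d1)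
    linarith
  · rw [hc1c0, hc1ρ]
    linarith
  · intro z hz hz0
    by_contra hne1
    have hzR : z ∈ ball c0 R := by
      have : ball c1 r ⊆ ball c0 R := by
        apply ball_subset_ball'
        rw [dist_eq_norm, hc1c0]
        have := min_le_right (Real.sqrt (((1 - t) * d1) ^ 2 + t * s ^ 2)) (R - t * d1)
        linarith
      exact this hz
    have h1 := hall z hzR hz0
    have h2 : s ≤ ‖z - ρ1‖ := by
      by_contra h
      push Not at h
      exact hs z h hne1 hz0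
    have h3 := strict_conv (z - c0) (ρ1 - c0) t
    have e1 : z - c0 - t * (ρ1 - c0) = z - c1 := by rw [hc1]; ring
    have e2 : z - c0 - (ρ1 - c0) = z - ρ1 := by ring
    rw [e1, e2] at h3
    have h4 : ‖z - c1‖ < Real.sqrt (((1 - t) * d1) ^ 2 + t * s ^ 2) := by
      rw [mem_ball, dist_eq_norm] at hz
      exact hz.trans_le (min_le_left _ _)
    have h5 : ‖z - c1‖ ^ 2 < ((1 - t) * d1) ^ 2 + t * s ^ 2 := by
      rw [Real.lt_sqrt (norm_nonneg _)] at h4
      exact h4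
    have h6 : d1 ^ 2 ≤ ‖z - c0‖ ^ 2 := pow_le_pow_left₀ hd1p.le h1 2
    have h7 : s ^ 2 ≤ ‖z - ρ1‖ ^ 2 := pow_le_pow_left₀ hs0.le h2 2
    rw [← hd1] at h3
    have h8 : (1 - t) * d1 ^ 2 ≤ (1 - t) * ‖z - c0‖ ^ 2 := mul_le_mul_of_nonneg_left h6 (by linarith)
    have h9 : t * s ^ 2 ≤ t * ‖z - ρ1‖ ^ 2 := mul_le_mul_of_nonneg_left h7 ht0.le
    nlinarith

/-- the logarithmic derivative times `z - ρ`, completed at `ρ` -/
noncomputable def LL (Z : ℂ → ℂ) (ρ : ℂ) (m : ℕ) (z : ℂ) : ℂ :=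
  if z = ρ then (m : ℂ) else (z - ρ) * (deriv Z z / Z z)

theorem LL_exists {Z : ℂ → ℂ} {c ρ : ℂ} {r : ℝ} (hZ : DifferentiableOn ℂ Z (ball c r)) (hρ : ρ ∈ ball c r) (hz : Z ρ = 0)
    (huniq : ∀ z ∈ ball c r, Z z = 0 → z = ρ) (hne : ∃ z ∈ ball c r, Z z ≠ 0) :
    ∃ m : ℕ, 1 ≤ m ∧ DifferentiableOn ℂ (LL Z ρ m) (ball c r) := by
  have hZa : AnalyticOnNhd ℂ Z (ball c r) := hZ.analyticOnNhd isOpen_ball
  have hord : analyticOrderAt Z ρ ≠ ⊤ := by
    intro h
    rw [analyticOrderAt_eq_top] at h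
    obtain ⟨z, hz1, hz2⟩ := hne
    exact hz2 (hZa.eqOn_zero_of_preconnected_of_eventuallyEq_zero (convex_ball c r).isPreconnected hρ h hz1)
  obtain ⟨g, hg, hg0, hZg⟩ := (hZa ρ hρ).analyticOrderAt_ne_top.1 hord
  set m : ℕ := analyticOrderNatAt Z ρ with hm
  have hm1 : 1 ≤ m := by
    by_contra h
    have h0 : m = 0 := by omega
    have h1 := hZg.self_of_nhds
    simp only [h0, pow_zero, one_smul] at h1
    rw [hz] at h1
    exact hg0 h1.symm
  refine ⟨m, hm1, fun z hzb => ?_⟩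
  apply DifferentiableAt.differentiableWithinAt
  by_cases hzρ : z = ρ
  · subst hzρ
    have hgd : ∀ᶠ w in 𝓝 z, DifferentiableAt ℂ g w := by
      filter_upwards [hg.eventually_analyticAt] with w hw
      exact hw.differentiableAt
    have hg0' : ∀ᶠ w in 𝓝 z, g w ≠ 0 := hg.continuousAt.eventually_ne hg0
    have hev : LL Z z m =ᶠ[𝓝 z] fun w => (m : ℂ) + (w - z) * (deriv g w / g w) := by
      filter_upwards [hZg.eventually_nhds, hgd, hg0'] with w h1 h2 h3
      unfold LL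
      split_ifs with h4
      · rw [h4]; simp
      · have hw0 : w - z ≠ 0 := sub_ne_zero.2 h4
        have h1' : Z =ᶠ[𝓝 w] fun x => (x - z) ^ m * g x := h1
        have h5 : deriv Z w = (m : ℂ) * (w - z) ^ (m - 1) * g w + (w - z) ^ m * deriv g w := by
          rw [h1'.deriv_eq]
          have h6 : HasDerivAt (fun x : ℂ => x - z) 1 w := (hasDerivAt_id w).sub_const z
          have h7 := (h6.pow m).mul h2.hasDerivAt
          simp only [mul_one] at h7
          exact h7.deriv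
        have h8 : Z w = (w - z) ^ m * g w := h1'.self_of_nhds
        rw [h5, h8]
        have h9 : (w - z) ^ m = (w - z) ^ (m - 1) * (w - z) := by
          rw [← pow_succ]
          congr 1
          omega
        have h10 : (w - z) ^ (m - 1) ≠ 0 := pow_ne_zero _ hw0
        rw [h9]
        field_simp
    rw [hev.differentiableAt_iff]
    have h11 : DifferentiableAt ℂ (deriv g) z := (hg.deriv).differentiableAt
    exact (differentiableAt_const _).add (((differentiableAt_id).sub_const z).mul (h11.div hg.differentiableAt hg0))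
  · have hZz : Z z ≠ 0 := fun h => hzρ (huniq z hzb h)
    have hev : LL Z ρ m =ᶠ[𝓝 z] fun w => (w - ρ) * (deriv Z w / Z w) := by
      filter_upwards [isOpen_ne.mem_nhds hzρ] with w hw
      unfold LL
      rw [if_neg hw]
    rw [hev.differentiableAt_iff]
    exact (differentiableAt_id.sub_const ρ).mul (((hZa z hzb).deriv.differentiableAt).div (hZa z hzb).differentiableAt hZz)

end Pool.Agent.Lib.MP_2a816b_nt.LM
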