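import Pool.Agent.Lib.MP_00e05b_nt.Mont.BaseF
import Pool.Agent.Lib.MP_00e05b_nt.Mont.Fejer

/-!
# Long means of `F(α, T)`: the upper bound `4/3 + o(1)`

The Fejér kernel of length `A` is at most the one of length `1` plus `4 A^(-2)` times the transform of `(1 - α)^2`.
-/

open Complex Set Filter Topology MeasureTheory

namespace Pool.Agent.Lib.MP_2a816b_nt.LM

open Pool.Agent.Lib.MP_00e05b_nt Pool.Agent.Lib.MP_00e05b_nt.Mont

theorem sin_mul_le {A x : ℝ} (hA : 1 ≤ A) (hx0 : 0 ≤ x) (hx : x ≤ Real.pi / 2) : |Real.sin (A * x)| ≤ A * Real.sin x := by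
  have hA0 : 0 < A := by linarith
  have hpi := Real.pi_pos
  rcases le_or_gt (A * x) (Real.pi / 2) with h | h
  · have hAx : 0 ≤ A * x := by positivity
    rw [abs_of_nonneg (Real.sin_nonneg_of_nonneg_of_le_pi hAx (by linarith))]
    have hc := strictConcaveOn_sin_Icc.concaveOn.2 (show A * x ∈ Icc 0 Real.pi from ⟨hAx, by linarith⟩)
      (show (0 : ℝ) ∈ Icc 0 Real.pi from ⟨le_rfl, hpi.le⟩) (show 0 ≤ 1 / A by positivity)
      (show 0 ≤ 1 - 1 / A by rw [sub_nonneg, div_le_one hA0]; exact hA) (by ring)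
    simp only [smul_eq_mul, Real.sin_zero, mul_zero, add_zero] at hc
    have e : 1 / A * (A * x) = x := by field_simp
    rw [e] at hc
    have h1 := mul_le_mul_of_nonneg_left hc hA0.le
    have e2 : A * (1 / A * Real.sin (A * x)) = Real.sin (A * x) := by field_simp
    linarith
  · have h1 : 2 / Real.pi * x ≤ Real.sin x := Real.mul_le_sin hx0 hx
    have h2 : 1 ≤ A * (2 / Real.pi * x) := by
      have e : A * (2 / Real.pi * x) = (A * x) / (Real.pi / 2) := by field_simp
      rw [e, le_div_iff₀ (by positivity)]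
      linarith
    calc |Real.sin (A * x)| ≤ 1 := Real.abs_sin_le_one _
      _ ≤ A * (2 / Real.pi * x) := h2
      _ ≤ A * Real.sin x := mul_le_mul_of_nonneg_left h1 hA0.le

theorem one_sub_cos (x : ℝ) : 1 - Real.cos x = 2 * Real.sin (x / 2) ^ 2 := by
  have h := Real.cos_two_mul (x / 2)
  rw [mul_div_cancel₀ x (two_ne_zero)] at h
  have h2 := Real.sin_sq_add_cos_sq (x / 2)
  linarith

/-- transform of the triangle -/
theorem tri_int {A u : ℝ} (hA : 0 < A) (hu : u ≠ 0) :
    ∫ α in (0 : ℝ)..A, Real.cos (α * u) * (1 - α / A) = (1 - Real.cos (A * u)) / (A * u ^ 2) := by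
  have hF : ∀ α ∈ uIcc 0 A, HasDerivAt (fun α : ℝ => (1 - α / A) * (Real.sin (α * u) / u) - Real.cos (α * u) / (A * u ^ 2))
      (Real.cos (α * u) * (1 - α / A)) α := by
    intro α _
    have h1 : HasDerivAt (fun α : ℝ => α * u) u α := by simpa using (hasDerivAt_id α).mul_const u
    have h2 : HasDerivAt (fun α : ℝ => 1 - α / A) (-(1 / A)) α := by
      simpa using ((hasDerivAt_id α).div_const A).const_sub 1
    have h3 := (h2.mul (h1.sin.div_const u)).sub (h1.cos.div_const (A * u ^ 2))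
    have e : -(1 / A) * (Real.sin (α * u) / u) + (1 - α / A) * (Real.cos (α * u) * u / u) -
        -Real.sin (α * u) * u / (A * u ^ 2) = Real.cos (α * u) * (1 - α / A) := by
      field_simp
      ring
    rw [← e]
    exact h3
  rw [intervalIntegral.integral_eq_sub_of_hasDerivAt hF (Continuous.intervalIntegrable (by fun_prop) _ _)]
  rw [zero_mul, Real.sin_zero, Real.cos_zero, div_self hA.ne']
  ring

/-- transform of `(1 - α)^2` -/
theorem quad_int {u : ℝ} (hu : u ≠ 0) :
    ∫ α in (0 : ℝ)..1, Real.cos (α * u) * (1 - α) ^ 2 = 2 * (u - Real.sin u) / u ^ 3 := by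
  have hF : ∀ α ∈ uIcc (0 : ℝ) 1, HasDerivAt (fun α : ℝ => (1 - α) ^ 2 * (Real.sin (α * u) / u) -
      2 * (1 - α) * (Real.cos (α * u) / u ^ 2) - 2 * (Real.sin (α * u) / u ^ 3))
      (Real.cos (α * u) * (1 - α) ^ 2) α := by
    intro α _
    have h1 : HasDerivAt (fun α : ℝ => α * u) u α := by simpa using (hasDerivAt_id α).mul_const u
    have h0 : HasDerivAt (fun α : ℝ => 1 - α) (-1) α := by simpa using (hasDerivAt_id α).const_sub 1
    have h2 := h0.pow 2
    have h3 := ((h2.mul (h1.sin.div_const u)).sub ((h0.const_mul 2).mul (h1.cos.div_const (u ^ 2)))).sub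
      ((h1.sin.div_const (u ^ 3)).const_mul 2)
    refine h3.congr_deriv ?_
    simp only [Pi.pow_apply]
    field_simp
    ring
  rw [intervalIntegral.integral_eq_sub_of_hasDerivAt hF (Continuous.intervalIntegrable (by fun_prop) _ _)]
  rw [zero_mul, Real.sin_zero, Real.cos_zero, one_mul]
  field_simp
  ring

theorem tri_int0 {A : ℝ} (hA : 0 < A) : ∫ α in (0 : ℝ)..A, (1 - α / A) = A / 2 := by
  rw [intervalIntegral.integral_sub (by simp) (Continuous.intervalIntegrable (by fun_prop) _ _),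
    intervalIntegral.integral_const, intervalIntegral.integral_div, integral_id, smul_eq_mul]
  field_simp
  ring

/-- the kernel inequality -/
theorem kern_le {A : ℝ} (hA : 1 ≤ A) (u : ℝ) :
    (2 / A) * ∫ α in (0 : ℝ)..A, Real.cos (α * u) * (1 - α / A) ≤
      2 * (∫ α in (0 : ℝ)..1, Real.cos (α * u) * (1 - α / 1)) +
        (4 / A ^ 2) * ∫ α in (0 : ℝ)..1, Real.cos (α * u) * (1 - α) ^ 2 := by
  have hA0 : 0 < A := by linarith
  have hpi := Real.pi_pos
  wlog hu : 0 ≤ u generalizing u with H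
  · have h1 := H (-u) (by linarith)
    have e : ∀ α : ℝ, Real.cos (α * -u) = Real.cos (α * u) := fun α => by rw [mul_neg, Real.cos_neg]
    simp only [e] at h1
    exact h1
  rcases eq_or_lt_of_le hu with h0 | h0
  · rw [← h0]
    simp only [mul_zero, Real.cos_zero, one_mul]
    rw [tri_int0 hA0, tri_int0 one_pos]
    have h1 : 0 ≤ ∫ α in (0 : ℝ)..1, (1 - α) ^ 2 := intervalIntegral.integral_nonneg zero_le_one fun α _ => sq_nonneg _
    have h2 : 0 ≤ 4 / A ^ 2 * ∫ α in (0 : ℝ)..1, (1 - α) ^ 2 := by positivity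
    have h3 : 2 / A * (A / 2) = 1 := by field_simp
    linarith
  · rw [tri_int hA0 h0.ne', tri_int one_pos h0.ne', quad_int h0.ne']
    have hsin : Real.sin u ≤ u := Real.sin_le hu
    rw [one_mul, one_mul]
    have e1 : 2 / A * ((1 - Real.cos (A * u)) / (A * u ^ 2)) = 2 * (1 - Real.cos (A * u)) / (A ^ 2 * u ^ 2) := by
      field_simp
    rw [e1]
    rcases le_or_gt u Real.pi with h | h
    · have h1 := sin_mul_le hA (show 0 ≤ u / 2 by positivity) (by linarith)
      have h2 : Real.sin (A * u / 2) ^ 2 ≤ A ^ 2 * Real.sin (u / 2) ^ 2 := by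
        rw [show A * u / 2 = A * (u / 2) by ring, ← sq_abs (Real.sin (A * (u / 2))), ← mul_pow]
        exact pow_le_pow_left₀ (abs_nonneg _) h1 2
      have h3 : 2 * (1 - Real.cos (A * u)) / (A ^ 2 * u ^ 2) ≤ 2 * ((1 - Real.cos u) / u ^ 2) := by
        rw [one_sub_cos, one_sub_cos, div_le_iff₀ (by positivity)]
        have e : 2 * (2 * Real.sin (u / 2) ^ 2 / u ^ 2) * (A ^ 2 * u ^ 2) = 4 * (A ^ 2 * Real.sin (u / 2) ^ 2) := by
          field_simp
          ring
        rw [e]
        linarith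
      have h4 : 0 ≤ 4 / A ^ 2 * (2 * (u - Real.sin u) / u ^ 3) := by
        have : 0 ≤ u - Real.sin u := by linarith
        positivity
      linarith
    · have h1 : 2 * (1 - Real.cos (A * u)) / (A ^ 2 * u ^ 2) ≤ 4 / (A ^ 2 * u ^ 2) := by
        apply div_le_div_of_nonneg_right _ (by positivity)
        have := Real.neg_one_le_cos (A * u)
        linarith
      have h2 : 4 / (A ^ 2 * u ^ 2) ≤ 4 / A ^ 2 * (2 * (u - Real.sin u) / u ^ 3) := by
        have hu2 : 2 ≤ u := by
          have := Real.two_le_pi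
          linarith
        have h5 : u ≤ 2 * (u - Real.sin u) := by
          have := Real.sin_le_one u
          linarith
        have e2 : 4 / (A ^ 2 * u ^ 2) = 4 / A ^ 2 * (u / u ^ 3) := by
          field_simp
        rw [e2]
        gcongr
      have h3 : 0 ≤ 2 * ((1 - Real.cos u) / u ^ 2) := by
        have := Real.cos_le_one u
        have : 0 ≤ 1 - Real.cos u := by linarith
        positivity
      linarith

/-- `FF` against a continuous weight -/
theorem FF_weight {T A : ℝ} (hT : 1 < T) {r : ℝ → ℝ} (hr : Continuous r) :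
    ∫ α in (0 : ℝ)..A, FF α T * r α = (N0 T)⁻¹ * ∑ γ ∈ ordinates T, ∑ γ' ∈ ordinates T,
      (mult γ : ℝ) * (mult γ' : ℝ) * weight (γ - γ') *
        ∫ α in (0 : ℝ)..A, Real.cos (α * (Real.log T * (γ - γ'))) * r α := by
  have hT0 : 0 < T := by linarith
  have e1 : ∀ α : ℝ, FF α T * r α = (N0 T)⁻¹ * ∑ γ ∈ ordinates T, ∑ γ' ∈ ordinates T,
      (mult γ : ℝ) * (mult γ' : ℝ) * weight (γ - γ') * (Real.cos (α * (Real.log T * (γ - γ'))) * r α) := by
    intro α
    rw [FF_cos hT0, mul_assoc, Finset.sum_mul]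
    simp_rw [Finset.sum_mul]
    congr 1
    refine Finset.sum_congr rfl fun γ _ => Finset.sum_congr rfl fun γ' _ => ?_
    rw [mul_assoc α]
    ring
  have hterm : ∀ γ γ' : ℝ, Continuous fun α : ℝ => (mult γ : ℝ) * (mult γ' : ℝ) * weight (γ - γ') *
      (Real.cos (α * (Real.log T * (γ - γ'))) * r α) := by
    intro γ γ'
    fun_prop
  simp_rw [e1]
  rw [intervalIntegral.integral_const_mul, intervalIntegral.integral_finsetSum
    (fun γ _ => (continuous_finsetSum _ fun γ' _ => hterm γ γ').intervalIntegrable _ _)]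
  congr 1
  refine Finset.sum_congr rfl fun γ _ => ?_
  rw [intervalIntegral.integral_finsetSum (fun γ' _ => (hterm γ γ').intervalIntegrable _ _)]
  refine Finset.sum_congr rfl fun γ' _ => ?_
  rw [intervalIntegral.integral_const_mul]

theorem F_kern {T A : ℝ} (hT : 1 < T) (hA : 1 ≤ A) :
    (2 / A) * ∫ α in (0 : ℝ)..A, FF α T * (1 - α / A) ≤
      2 * (∫ α in (0 : ℝ)..1, FF α T * (1 - α / 1)) + (4 / A ^ 2) * ∫ α in (0 : ℝ)..1, FF α T * (1 - α) ^ 2 := by
  have hN := N0_pos hT
  have hw : ∀ u : ℝ, 0 ≤ weight u := fun u => by unfold weight; positivity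
  rw [FF_weight hT (r := fun α => 1 - α / A) (by fun_prop), FF_weight hT (r := fun α => 1 - α / 1) (by fun_prop),
    FF_weight hT (r := fun α => (1 - α) ^ 2) (by fun_prop)]
  rw [mul_left_comm, mul_left_comm 2, mul_left_comm (4 / A ^ 2), ← mul_add]
  apply mul_le_mul_of_nonneg_left _ (inv_nonneg.mpr hN.le)
  rw [Finset.mul_sum, Finset.mul_sum, Finset.mul_sum, ← Finset.sum_add_distrib]
  refine Finset.sum_le_sum fun γ _ => ?_
  rw [Finset.mul_sum, Finset.mul_sum, Finset.mul_sum, ← Finset.sum_add_distrib]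
  refine Finset.sum_le_sum fun γ' _ => ?_
  have h1 := kern_le hA (Real.log T * (γ - γ'))
  have h2 : 0 ≤ (mult γ : ℝ) * (mult γ' : ℝ) * weight (γ - γ') := mul_nonneg (by positivity) (hw _)
  have h3 := mul_le_mul_of_nonneg_left h1 h2
  refine le_trans (le_of_eq ?_) (h3.trans (le_of_eq ?_))
  · ring
  · ring

/-- Long means of `F`: at most `4/3` up to small errors -/
theorem F_long (hRH : RiemannHypothesis) {ε : ℝ} (hε : 0 < ε) :
    ∀ᶠ T : ℝ in atTop, ∀ A : ℝ, 1 ≤ A →
      (2 / A) * ∫ α in (0 : ℝ)..A, FF α T * (1 - α / A) ≤ 4 / 3 + ε + (4 / A ^ 2) * (7 / 12 + ε) := by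
  have h1 := base hRH (r := fun α => 1 - α / 1) (by fun_prop)
  have h2 := base hRH (r := fun α => (1 - α) ^ 2) (by fun_prop)
  have e1 : ∫ x in (0 : ℝ)..1, x * (1 - x / 1) = 1 / 6 := by
    have : ∀ x : ℝ, x * (1 - x / 1) = x - x ^ 2 := fun x => by ring
    simp only [this]
    rw [intervalIntegral.integral_sub (by simp) (by simp), integral_id, integral_pow]
    norm_num
  have e2 : ∫ x in (0 : ℝ)..1, x * (1 - x) ^ 2 = 1 / 12 := by
    have : ∀ x : ℝ, x * (1 - x) ^ 2 = x - 2 * x ^ 2 + x ^ 3 := fun x => by ring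
    simp only [this]
    rw [intervalIntegral.integral_add (Continuous.intervalIntegrable (by fun_prop) _ _) (by simp),
      intervalIntegral.integral_sub (by simp) (Continuous.intervalIntegrable (by fun_prop) _ _),
      intervalIntegral.integral_const_mul, integral_id, integral_pow, integral_pow]
    norm_num
  simp only [zero_div, sub_zero] at h1
  simp only [sub_zero, one_pow] at h2
  rw [e1] at h1
  rw [e2] at h2
  filter_upwards [h1.eventually_le_const (show 1 / 2 + 1 / 6 < 2 / 3 + ε / 2 by linarith),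
    h2.eventually_le_const (show 1 / 2 + 1 / 12 < 7 / 12 + ε by linarith), eventually_gt_atTop (1 : ℝ)] with T h3 h4 hT A hA
  refine (F_kern hT hA).trans ?_
  have hA0 : 0 < A := by linarith
  have h5 : 4 / A ^ 2 * ∫ α in (0 : ℝ)..1, FF α T * (1 - α) ^ 2 ≤ 4 / A ^ 2 * (7 / 12 + ε) :=
    mul_le_mul_of_nonneg_left h4 (by positivity)
  linarith

end Pool.Agent.Lib.MP_2a816b_nt.LM
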