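import Pool.Agent.Lib.MP_2a816b_nt.LM.RFalse
import Pool.Agent.Lib.MP_2a816b_nt.PV.Fin

/-!
# Long means of the normalised variance: the lower bound
-/

open Set Filter Topology MeasureTheory

namespace Pool.Agent.Lib.MP_2a816b_nt.LM

open Pool.Agent.Lib.MP_2a816b_nt.PV

/-- the mean of `RR α T` over `[b, b + l]` with the weight `(2 / l^2) (b + l - α)` -/
noncomputable def MM (b l T : ℝ) : ℝ := (2 / l ^ 2) * ∫ α in b..(b + l), (b + l - α) * RR α T

theorem wRR_ii {T : ℝ} (hT : 2 ≤ T) (A a b : ℝ) : IntervalIntegrable (fun α => (A - α) * RR α T) volume a b := by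
  have h : IntervalIntegrable (fun α => RR α T) volume a b := by
    rcases le_total a b with h | h
    · exact (star_avg hT h).1
    · exact (star_avg hT h).1.symm
  exact h.continuousOn_mul (by fun_prop)

/-- RH case -/
theorem lower_true (hRH : RiemannHypothesis) {b η : ℝ} (hb : 1 ≤ b) (hη : 0 < η) :
    ∃ l0 : ℝ, 0 < l0 ∧ ∀ l : ℝ, l0 ≤ l → ∀ᶠ T : ℝ in atTop, 1 - η ≤ MM b l T := by
  obtain ⟨K0, hK0⟩ := RR_bdd hRH b
  set K : ℝ := max K0 0 with hK
  have hKn : 0 ≤ K := le_max_right _ _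
  refine ⟨max 1 (2 * (b * K + K + 1) / η), by positivity, fun l hl => ?_⟩
  have hl1 : 1 ≤ l := (le_max_left _ _).trans hl
  have hl0 : 0 < l := by linarith
  have hlη : 2 * (b * K + K + 1) ≤ η * l := by
    have h1 := (le_max_right 1 (2 * (b * K + K + 1) / η)).trans hl
    rw [div_le_iff₀ hη] at h1
    linarith
  set A : ℝ := b + l with hA
  have hA1 : 1 < A := by linarith
  filter_upwards [LB_mean hRH hA1 (ε := 1 / 6) (by norm_num), hK0, RR_ii, eventually_ge_atTop (2 : ℝ)] with T h1 h2 h3 hT2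
  have hg : IntervalIntegrable (fun α => RR α T - 1) volume 1 A := (h3 _ _).sub (by simp)
  have hp := mean_parts hA1 hg
  have hA0 : 0 < A := by linarith
  have e1 : ∫ α in (1 : ℝ)..A, (RR α T - 1) * (1 - α / A) = 1 / A * ∫ α in (1 : ℝ)..A, (A - α) * (RR α T - 1) := by
    rw [← intervalIntegral.integral_const_mul]
    congr 1
    funext α
    field_simp
  have e2 : ∫ α in (1 : ℝ)..A, (A - α) * (RR α T - 1) = ∫ y in (1 : ℝ)..A, ∫ α in (1 : ℝ)..y, (RR α T - 1) := by
    rw [e1] at hp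
    have h4 : (1 : ℝ) / A ≠ 0 := by positivity
    exact mul_left_cancel₀ h4 hp
  have e3 : ∫ α in (1 : ℝ)..A, (A - α) * (RR α T - 1) =
      (∫ α in (1 : ℝ)..A, (A - α) * RR α T) - (A - 1) ^ 2 / 2 := by
    have h4 : ∀ α : ℝ, (A - α) * (RR α T - 1) = (A - α) * RR α T - (A - α) := fun α => by ring
    simp only [h4]
    rw [intervalIntegral.integral_sub (wRR_ii hT2 A 1 A) (Continuous.intervalIntegrable (by fun_prop) _ _),
      intervalIntegral.integral_sub (by simp) (by simp), intervalIntegral.integral_const, integral_id, smul_eq_mul]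
    ring
  have e4 : ∫ α in (1 : ℝ)..A, (A - α) * RR α T = (∫ α in (1 : ℝ)..b, (A - α) * RR α T) + ∫ α in b..A, (A - α) * RR α T :=
    (intervalIntegral.integral_add_adjacent_intervals (wRR_ii hT2 A 1 b) (wRR_ii hT2 A b A)).symm
  have h5 : ∫ α in (1 : ℝ)..b, (A - α) * RR α T ≤ A * K := by
    calc ∫ α in (1 : ℝ)..b, (A - α) * RR α T ≤ ∫ α in (1 : ℝ)..b, A * RR α T := by
          refine intervalIntegral.integral_mono_on hb (wRR_ii hT2 A 1 b) ((h3 1 b).const_mul _) fun α hα => ?_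
          have h6 := RR_nonneg hT2 α
          exact mul_le_mul_of_nonneg_right (by linarith [hα.1]) h6
      _ = A * ∫ α in (1 : ℝ)..b, RR α T := by rw [intervalIntegral.integral_const_mul]
      _ ≤ A * K := mul_le_mul_of_nonneg_left (h2.trans (le_max_left _ _)) hA0.le
  have h6 : (1 - η) * (l ^ 2 / 2) ≤ ∫ α in b..A, (A - α) * RR α T := by
    have h7 : l ^ 2 ≤ (A - 1) ^ 2 := pow_le_pow_left₀ hl0.le (by linarith) 2
    have h8 : l * (b * K + K + 1) ≤ l * (η * l / 2) := mul_le_mul_of_nonneg_left (by linarith) hl0.le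
    have h9 : A * K + 1 ≤ l * (b * K + K + 1) := by
      rw [hA]
      have h10 : 0 ≤ (l - 1) * (b * K) := mul_nonneg (by linarith) (by positivity)
      nlinarith
    nlinarith
  unfold MM
  rw [← hA]
  calc 1 - η = 2 / l ^ 2 * ((1 - η) * (l ^ 2 / 2)) := by field_simp
    _ ≤ 2 / l ^ 2 * ∫ α in b..A, (A - α) * RR α T := mul_le_mul_of_nonneg_left h6 (by positivity)

/-- the other case -/
theorem lower_false (h : ¬ RiemannHypothesis) {b : ℝ} (hb : 1 ≤ b) (K : ℝ) :
    ∃ l0 : ℝ, 0 < l0 ∧ ∀ l : ℝ, l0 ≤ l → ∀ᶠ T : ℝ in atTop, T ^ K ≤ MM b l T := by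
  obtain ⟨a', b', ha', hab', hT⟩ := R_false h (K + 1) b hb
  refine ⟨b' + 1, by linarith, fun l hl => ?_⟩
  have hl0 : 0 < l := by linarith
  filter_upwards [hT, eventually_ge_atTop (2 : ℝ), eventually_ge_atTop (l ^ 2 / 2)] with T h1 hT2 hTl
  have hT0 : 0 < T := by linarith
  have h2 : ∫ α in a'..b', RR α T ≤ ∫ α in b..(b + l), (b + l - α) * RR α T := by
    have hii : ∀ x y : ℝ, x ≤ y → IntervalIntegrable (fun α => RR α T) volume x y := fun x y hxy => (star_avg hT2 hxy).1
    calc ∫ α in a'..b', RR α T ≤ ∫ α in a'..b', (b + l - α) * RR α T := by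
          refine intervalIntegral.integral_mono_on hab'.le (hii _ _ hab'.le) (wRR_ii hT2 _ _ _) fun α hα => ?_
          have h3 := RR_nonneg hT2 α
          exact le_mul_of_one_le_left h3 (by linarith [hα.2])
      _ ≤ ∫ α in b..(b + l), (b + l - α) * RR α T := by
          refine intervalIntegral.integral_mono_interval ha' hab'.le (by linarith) ?_ (wRR_ii hT2 _ _ _)
          rw [EventuallyLE, ae_restrict_iff' measurableSet_Ioc]
          refine Eventually.of_forall fun α hα => ?_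
          exact mul_nonneg (by linarith [hα.2]) (RR_nonneg hT2 α)
  unfold MM
  calc T ^ K ≤ 2 / l ^ 2 * T ^ (K + 1) := by
        rw [Real.rpow_add hT0, Real.rpow_one]
        have h3 : 0 < T ^ K := Real.rpow_pos_of_pos hT0 _
        have h4 : 1 ≤ 2 / l ^ 2 * T := by
          rw [div_mul_eq_mul_div, le_div_iff₀ (by positivity)]
          linarith
        nlinarith
    _ ≤ 2 / l ^ 2 * ∫ α in b..(b + l), (b + l - α) * RR α T :=
        mul_le_mul_of_nonneg_left (h1.trans h2) (by positivity)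

/-- **The lower half of Q1 in long means, with no hypothesis** -/
theorem lower {b η : ℝ} (hb : 1 ≤ b) (hη : 0 < η) :
    ∃ l0 : ℝ, 0 < l0 ∧ ∀ l : ℝ, l0 ≤ l → ∀ᶠ T : ℝ in atTop, 1 - η ≤ MM b l T := by
  by_cases h : RiemannHypothesis
  · exact lower_true h hb hη
  · obtain ⟨l0, hl0, hl⟩ := lower_false h hb 0
    refine ⟨l0, hl0, fun l hll => ?_⟩
    filter_upwards [hl l hll] with T hT
    rw [Real.rpow_zero] at hT
    linarith

end Pool.Agent.Lib.MP_2a816b_nt.LM
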