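import Pool.Agent.Lib.MP_2a816b_nt.LM.Phi

/-!
# If the Riemann Hypothesis fails, `Fq θ` is large on `[a n, b n]` for every large `n`
-/

open Set Filter Topology MeasureTheory Complex Metric

namespace Pool.Agent.Lib.MP_2a816b_nt.LM

open Pool.Agent.Lib.MP_2a816b_nt.PV

theorem Fq_bdd {θ v : ℝ} (hθ : 0 ≤ θ) (hθ2 : θ ≤ 5 / 2) :
    |Fq θ v| ≤ ((Real.log 4 + 5) * Real.exp (5 / 2)) * Real.exp v := by
  have h1 := Chebyshev.psi_le_const_mul_self (Real.exp_pos (v + θ)).le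
  have h2 := Chebyshev.psi_nonneg (Real.exp v)
  have h3 : Chebyshev.psi (Real.exp v) ≤ Chebyshev.psi (Real.exp (v + θ)) :=
    Chebyshev.psi_mono (Real.exp_le_exp.2 (by linarith))
  have h4 : Real.exp θ ≤ Real.exp (5 / 2) := Real.exp_le_exp.2 hθ2
  have h5 : 1 ≤ Real.exp θ := Real.one_le_exp hθ
  have h6 : Real.exp (v + θ) ≤ Real.exp (5 / 2) * Real.exp v := by
    rw [Real.exp_add, mul_comm]
    exact mul_le_mul_of_nonneg_right h4 (Real.exp_pos _).le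
  have h7 : 0 ≤ (Real.exp θ - 1) * Real.exp v := mul_nonneg (by linarith) (Real.exp_pos _).le
  have h8 : (Real.exp θ - 1) * Real.exp v ≤ Real.exp (5 / 2) * Real.exp v :=
    mul_le_mul_of_nonneg_right (by linarith) (Real.exp_pos _).le
  have h9 : 0 ≤ Real.log 4 := Real.log_nonneg (by norm_num)
  have h10 : (Real.log 4 + 4) * Real.exp (v + θ) ≤ (Real.log 4 + 4) * (Real.exp (5 / 2) * Real.exp v) :=
    mul_le_mul_of_nonneg_left h6 (by linarith)
  have h11 : 0 ≤ Real.exp (5 / 2) * Real.exp v := by positivity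
  unfold Fq
  rw [abs_le]
  constructor
  · nlinarith
  · nlinarith

theorem Phi_bdd {ρ c : ℂ} {m : ℕ} {r r1 : ℝ} (hr1 : 0 < r1) (hrr : r1 < r) (hL : DifferentiableOn ℂ (LL ZZ ρ m) (ball c r))
    (h0 : ∀ z ∈ ball c r, 1 / 2 ≤ ‖z‖) :
    ∃ B : ℝ, 0 ≤ B ∧ ∀ θ : ℝ, 0 < θ → θ ≤ 5 / 2 → ∀ z ∈ sphere c r1, ‖Phi ρ m θ z‖ ≤ B := by
  obtain ⟨BL, hBL⟩ := (isCompact_closedBall c r1).exists_bound_of_continuousOn
    (hL.continuousOn.mono (closedBall_subset_ball hrr))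
  set R1 : ℝ := ‖c‖ + r1 with hR1
  set D : ℝ := ‖c‖ + r1 + ‖ρ‖ with hD
  set P0 : ℝ := (Chebyshev.psi (Real.exp (5 / 2)) + Real.exp (5 / 2)) * Real.exp (R1 * (5 / 2)) * (5 / 2) with hP0
  have hP0n : 0 ≤ P0 := by
    have := Chebyshev.psi_nonneg (Real.exp (5 / 2))
    positivity
  refine ⟨(Real.exp (R1 * (5 / 2)) + 1) * 2 * (|BL| + D) + D * (Real.exp (R1 * (5 / 2)) * P0), by positivity, ?_⟩
  intro θ hθ hθ2 z hz
  have hzb : z ∈ closedBall c r1 := sphere_subset_closedBall hz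
  have hzn : ‖z‖ ≤ R1 := by
    have h1 : ‖z - c‖ ≤ r1 := by
      rw [← dist_eq_norm]; exact hzb
    have h2 : ‖z‖ ≤ ‖c‖ + ‖z - c‖ := by
      have := norm_add_le c (z - c)
      rwa [add_sub_cancel] at this
    linarith
  have hzh : 1 / 2 ≤ ‖z‖ := h0 z (closedBall_subset_ball hrr hzb)
  have hzρ : ‖z - ρ‖ ≤ D := by
    have := norm_sub_le z ρ
    linarith
  have hexp : ‖cexp (z * θ)‖ ≤ Real.exp (R1 * (5 / 2)) := by
    rw [Complex.norm_exp, Real.exp_le_exp, mul_re, ofReal_re, ofReal_im, mul_zero, sub_zero]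
    have h1 : z.re ≤ ‖z‖ := (le_abs_self _).trans (Complex.abs_re_le_norm z)
    calc z.re * θ ≤ ‖z‖ * θ := mul_le_mul_of_nonneg_right h1 hθ.le
      _ ≤ R1 * (5 / 2) := mul_le_mul hzn hθ2 hθ.le (by positivity)
  have h1 : ‖(cexp (z * θ) - 1) / z‖ ≤ (Real.exp (R1 * (5 / 2)) + 1) * 2 := by
    rw [norm_div, div_le_iff₀ (by linarith)]
    have h2 : ‖cexp (z * θ) - 1‖ ≤ Real.exp (R1 * (5 / 2)) + 1 := by
      have := norm_sub_le (cexp (z * θ)) 1
      rw [norm_one] at this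
      linarith
    have h3 : 0 ≤ Real.exp (R1 * (5 / 2)) + 1 := by positivity
    nlinarith
  have h2 : ‖LL ZZ ρ m z + (z - ρ)‖ ≤ |BL| + D := by
    have := norm_add_le (LL ZZ ρ m z) (z - ρ)
    have := hBL z hzb
    have := le_abs_self BL
    linarith
  have h3 := PE_norm hθ hθ2 hzn
  unfold Phi
  refine (norm_sub_le _ _).trans ?_
  rw [norm_neg, norm_mul, norm_mul, norm_mul]
  have h4 : 0 ≤ D := by positivity
  have h5 : 0 ≤ |BL| + D := by positivity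
  gcongr

theorem NZ (h : ¬ RiemannHypothesis) :
    ∃ a b κ c : ℝ, 0 < a ∧ a < b ∧ 1 / 2 < κ ∧ 0 < c ∧ ∃ n0 : ℕ, ∀ n : ℕ, n0 ≤ n → ∀ θ : ℝ, 3 / 2 ≤ θ → θ ≤ 5 / 2 →
      c ≤ ∫ v in (a * n)..(b * n), |Fq θ v| * Real.exp (-(κ * v)) := by
  obtain ⟨ρ0, hρ0, hρ01, hζ0⟩ : ∃ ρ0 : ℂ, 1 / 2 < ρ0.re ∧ ρ0 ≠ 1 ∧ riemannZeta ρ0 = 0 := by
    by_contra hcon
    push Not at hcon
    exact h (RH_of_zfree hcon)
  have hρ0r : ρ0.re < 1 := by
    by_contra hge
    push Not at hge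
    exact riemannZeta_ne_zero_of_one_le_re hge hζ0
  set c0 : ℂ := 2 + ρ0.im * I with hc0
  have hc0re : c0.re = 2 := by simp [hc0]
  have hρ0c0 : ‖ρ0 - c0‖ = 2 - ρ0.re := by
    have h1 : ρ0 - c0 = ((-(2 - ρ0.re) : ℝ) : ℂ) := by
      apply Complex.ext
      · simp [hc0]
      · simp [hc0]
    rw [h1, Complex.norm_real, Real.norm_eq_abs, abs_neg, abs_of_pos (by linarith)]
  have hball : ∀ z ∈ ball c0 (3 / 2), 1 / 2 < z.re := by
    intro z hz
    rw [mem_ball, dist_eq_norm] at hz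
    have h1 := Complex.abs_re_le_norm (z - c0)
    rw [sub_re, hc0re] at h1
    have h2 := neg_abs_le (z.re - 2)
    linarith
  have hballn : ∀ z ∈ ball c0 (3 / 2), 1 / 2 ≤ ‖z‖ := by
    intro z hz
    exact (hball z hz).le.trans ((le_abs_self _).trans (Complex.abs_re_le_norm z))
  have hball0 : ∀ z ∈ ball c0 (3 / 2), z ≠ 0 := by
    rintro z hz rfl
    have := hballn 0 hz
    rw [norm_zero] at this
    linarith
  have hZd : DifferentiableOn ℂ ZZ (ball c0 (3 / 2)) := fun z hz => (ZZ_diff (hball0 z hz)).differentiableWithinAt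
  have hne1 : ∀ z : ℂ, 1 < z.re → ZZ z ≠ 0 := by
    intro z hz
    have hz0 : z ≠ 0 := by
      rintro rfl
      simp only [zero_re] at hz
      linarith
    have hz1 : z ≠ 1 := by
      rintro rfl
      simp only [one_re] at hz
      linarith
    rw [ZZ_eq hz0 hz1]
    exact mul_ne_zero (sub_ne_zero.2 hz1) (riemannZeta_ne_zero_of_one_lt_re hz)
  have hZρ0 : ZZ ρ0 = 0 := by
    have hz0 : ρ0 ≠ 0 := by
      rintro rfl
      simp only [zero_re] at hρ0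
      linarith
    rw [ZZ_eq hz0 hρ01, hζ0, mul_zero]
  obtain ⟨c1, ρ1, r, hc1, hZρ1, hd, hdr, hsub, hsum, huniq⟩ :=
    unique_nearest (ε := 1 / 2) (by norm_num) hZd (hne1 c0 (by rw [hc0re]; norm_num)) hZρ0 (by rw [hρ0c0]; linarith)
  set d : ℝ := ‖ρ1 - c1‖ with hd'
  have hc1re : 2 - ‖c1 - c0‖ ≤ c1.re := by
    have h1 := Complex.abs_re_le_norm (c1 - c0)
    rw [sub_re, hc0re] at h1
    have h2 := neg_abs_le (c1.re - 2)
    linarith
  have hσ : 1 < c1.re := by linarith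
  have hκ : 1 / 2 < c1.re - d := by
    rw [hρ0c0] at hsum
    linarith
  have hρ1b : ρ1 ∈ ball c1 r := by
    rw [mem_ball, dist_eq_norm]
    exact hdr
  have hρ1re : 1 / 2 < ρ1.re := hball ρ1 (hsub hρ1b)
  have hρ11 : ρ1.re ≤ 1 := by
    by_contra hgt
    push Not at hgt
    exact hne1 ρ1 hgt hZρ1
  have hρ1n : 0 < ‖ρ1‖ := lt_of_lt_of_le (by norm_num) (hballn ρ1 (hsub hρ1b))
  have hr0 : 0 < r := hd.trans hdr
  obtain ⟨m, hm1, hL⟩ := LL_exists (hZd.mono hsub) hρ1b hZρ1 huniq ⟨c1, mem_ball_self hr0, hne1 c1 hσ⟩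
  set r1 : ℝ := (d + r) / 2 with hr1
  have hdr1 : d < r1 := by rw [hr1]; linarith
  have hr1r : r1 < r := by rw [hr1]; linarith
  have hr10 : 0 < r1 := hd.trans hdr1
  obtain ⟨B, hB, hBd⟩ := Phi_bdd hr10 hr1r hL (fun z hz => hballn z (hsub hz))
  -- the value at the zero
  set c2 : ℝ := (Real.exp (3 / 4) - 1) / ‖ρ1‖ / 2 with hc2
  have he34 : 0 < Real.exp (3 / 4) - 1 := by
    have := Real.add_one_lt_exp (show (3 / 4 : ℝ) ≠ 0 by norm_num)
    linarith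
  have hc20 : 0 < c2 := by positivity
  have hval : ∀ θ : ℝ, 3 / 2 ≤ θ → 2 * c2 ≤ ‖Phi ρ1 m θ ρ1‖ := by
    intro θ hθ
    have e1 : Phi ρ1 m θ ρ1 = -((cexp (ρ1 * θ) - 1) / ρ1 * (m : ℂ)) := by
      unfold Phi LL
      rw [if_pos rfl]
      ring
    rw [e1, norm_neg, norm_mul, norm_div, Complex.norm_natCast]
    have h1 : Real.exp (3 / 4) ≤ ‖cexp (ρ1 * θ)‖ := by
      rw [Complex.norm_exp, Real.exp_le_exp, mul_re, ofReal_re, ofReal_im, mul_zero, sub_zero]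
      nlinarith
    have h2 : Real.exp (3 / 4) - 1 ≤ ‖cexp (ρ1 * θ) - 1‖ := by
      have := norm_sub_norm_le (cexp (ρ1 * θ)) 1
      rw [norm_one] at this
      linarith
    have h3 : (1 : ℝ) ≤ m := by exact_mod_cast hm1
    calc 2 * c2 = (Real.exp (3 / 4) - 1) / ‖ρ1‖ * 1 := by rw [hc2]; ring
      _ ≤ ‖cexp (ρ1 * θ) - 1‖ / ‖ρ1‖ * m := by gcongr
  -- the threshold for the coefficients
  have hq : d / r1 < 1 := (div_lt_one hr10).2 hdr1
  have hq0 : 0 ≤ d / r1 := by positivity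
  obtain ⟨n1, hn1⟩ : ∃ n1 : ℕ, ∀ n : ℕ, n1 ≤ n → B * (d / r1) ^ (n + 1) / (1 - d / r1) ≤ c2 := by
    have h1 : Tendsto (fun n : ℕ => B * (d / r1) ^ (n + 1) / (1 - d / r1)) atTop (𝓝 (B * 0 / (1 - d / r1))) := by
      apply Tendsto.div_const
      apply Tendsto.const_mul
      exact (tendsto_pow_atTop_nhds_zero_of_lt_one hq0 hq).comp (tendsto_add_atTop_nat 1)
    rw [mul_zero, zero_div] at h1
    exact eventually_atTop.1 (h1.eventually_le_const hc20)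
  have hC : 0 ≤ (Real.log 4 + 5) * Real.exp (5 / 2) := by
    have : 0 ≤ Real.log 4 := Real.log_nonneg (by norm_num)
    positivity
  obtain ⟨a, b, ha, hab, n0, hloc⟩ := localise hC hσ hd (show 0 < c2 / d by positivity)
  refine ⟨a, b, c1.re - d, c2 / d / 2, ha, hab, hκ, by positivity, max n0 n1, fun n hn θ hθ hθ2 => ?_⟩
  have hθ0 : 0 < θ := by linarith
  refine hloc n ((le_max_left _ _).trans hn) (Fq θ) (Man_meas θ) (fun v _ => Fq_bdd hθ0.le hθ2) ?_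
  -- the coefficient
  set A : ℕ → ℂ := fun n => (-1 : ℂ) ^ n * ∫ v in Ioi (0 : ℝ), (Fq θ v : ℂ) * ((v : ℂ) ^ n / (n.factorial : ℂ)) * cexp (-(c1 * v))
    with hA
  have hcb := coeff_bound (M := fun s => ∫ v in Ioi (0 : ℝ), (Fq θ v : ℂ) * cexp (-(s * v))) (Φ := Phi ρ1 m θ) (a := A)
    (c := c1) (w := ρ1 - c1) (δ := c1.re - 1) (r := r1) (r' := r) (B := B) (by linarith) hdr1 hr1r hB
    (fun z hz => laplace_taylor (Man_meas θ) hC (fun v _ => Fq_bdd hθ0.le hθ2) hσ hz)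
    (Phi_diff hθ0 hL (fun z hz => hball0 z (hsub hz))) (fun z hz => hBd θ hθ0 hθ2 z hz)
    (fun z hz => by
      have hre : 1 < (c1 + z).re := by
        have h1 := Complex.abs_re_le_norm z
        have h2 := neg_abs_le z.re
        rw [add_re]
        linarith
      rw [Phi_eq hθ0 hρ11 hre]
      congr 1
      ring) n
  rw [add_sub_cancel, ← hd'] at hcb
  have h1 := hcb.trans (hn1 n ((le_max_right _ _).trans hn))
  have h2 : c2 ≤ ‖(ρ1 - c1) ^ (n + 1) * A n‖ := by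
    have h3 := hval θ hθ
    have h4 := norm_sub_norm_le (Phi ρ1 m θ ρ1) (-((ρ1 - c1) ^ (n + 1) * A n))
    rw [norm_neg, sub_neg_eq_add, add_comm (Phi ρ1 m θ ρ1)] at h4
    linarith
  rw [norm_mul, norm_pow, ← hd'] at h2
  have h5 : ‖A n‖ ≤ ∫ v in Ioi (0 : ℝ), |Fq θ v| * (v ^ n / (n.factorial : ℝ)) * Real.exp (-(c1.re * v)) := by
    rw [hA]
    simp only [norm_mul, norm_pow, norm_neg, norm_one, one_pow, one_mul]
    refine (norm_integral_le_integral_norm _).trans (le_of_eq ?_)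
    refine setIntegral_congr_fun measurableSet_Ioi fun v hv => ?_
    have hv0 : (0 : ℝ) < v := hv
    rw [norm_mul, norm_mul, Complex.norm_real, Real.norm_eq_abs, norm_div, norm_pow, Complex.norm_real,
      Real.norm_eq_abs, abs_of_pos hv0, Complex.norm_natCast, Complex.norm_exp]
    have : (-(c1 * (v : ℂ))).re = -(c1.re * v) := by simp
    rw [this]
  refine le_trans ?_ h5
  have h6 : 0 < d ^ (n + 1) := by positivity
  have h7 : c2 / d * d⁻¹ ^ n = c2 / d ^ (n + 1) := by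
    rw [inv_pow, pow_succ]
    field_simp
  rw [h7, div_le_iff₀ h6]
  linarith [mul_comm (d ^ (n + 1)) ‖A n‖]

end Pool.Agent.Lib.MP_2a816b_nt.LM
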