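import Pool.Agent.Lib.MP_2a816b_nt.LM.Geo
import Pool.Agent.Lib.MP_2a816b_nt.PV.Mell
import Pool.Agent.Lib.MP_2a816b_nt.PV.Man
import Pool.Agent.Lib.MP_2a816b_nt.PV.RHz

/-!
# The Laplace transform of `Fq θ` near a zero
-/

open Set Filter Topology MeasureTheory Complex Metric

namespace Pool.Agent.Lib.MP_2a816b_nt.LM

open Pool.Agent.Lib.MP_2a816b_nt.PV

/-- `(s - 1) ζ(s)` -/
noncomputable def ZZ (s : ℂ) : ℂ :=
  ((s - 1) * completedRiemannZeta₀ s - (s - 1) / s + 1) * (Gammaℝ s)⁻¹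

theorem ZZ_eq {s : ℂ} (hs : s ≠ 0) (hs1 : s ≠ 1) : ZZ s = (s - 1) * riemannZeta s := by
  rw [ZZ, riemannZeta_def_of_ne_zero hs, completedRiemannZeta_eq, div_eq_mul_inv _ (Gammaℝ s),
    ← mul_assoc]
  congr 1
  have h1 : (1 : ℂ) - s ≠ 0 := sub_ne_zero.2 hs1.symm
  field_simp
  ring

theorem ZZ_diff {s : ℂ} (hs : s ≠ 0) : DifferentiableAt ℂ ZZ s := by
  have h1 := differentiable_completedZeta₀ s
  have h2 := differentiable_Gammaℝ_inv s
  have h3 : DifferentiableAt ℂ (fun s : ℂ => (s - 1) / s) s :=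
    (differentiableAt_id.sub_const 1).div differentiableAt_id hs
  exact ((((differentiableAt_id.sub_const 1).mul h1).sub h3).add_const 1).mul h2

/-- `ψ(e^v) - e^v` -/
noncomputable def Ev (v : ℝ) : ℝ := Chebyshev.psi (Real.exp v) - Real.exp v

theorem Ev_meas : Measurable Ev :=
  (Chebyshev.psi_mono.measurable.comp Real.measurable_exp).sub Real.measurable_exp

theorem Ev_bdd {θ v : ℝ} (hv : v ≤ θ) : |Ev v| ≤ Chebyshev.psi (Real.exp θ) + Real.exp θ := by
  have h1 : Chebyshev.psi (Real.exp v) ≤ Chebyshev.psi (Real.exp θ) := Chebyshev.psi_mono (Real.exp_le_exp.2 hv)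
  have h2 := Chebyshev.psi_nonneg (Real.exp v)
  have h3 := Real.exp_le_exp.2 hv
  have h4 := Real.exp_pos v
  unfold Ev
  rw [abs_le]
  constructor <;> linarith

/-- the entire part -/
noncomputable def PE (θ : ℝ) (s : ℂ) : ℂ := ∫ v in (0 : ℝ)..θ, (Ev v : ℂ) * cexp (-(s * v))

theorem PE_bd {θ v : ℝ} (s : ℂ) (hv : v ∈ uIoc (0 : ℝ) θ) (hθ : 0 < θ) :
    ‖(Ev v : ℂ) * cexp (-(s * v))‖ ≤ (Chebyshev.psi (Real.exp θ) + Real.exp θ) * Real.exp (‖s‖ * θ) := by
  rw [uIoc_of_le hθ.le] at hv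
  rw [norm_mul, Complex.norm_real, Real.norm_eq_abs, Complex.norm_exp]
  refine mul_le_mul (Ev_bdd hv.2) ?_ (Real.exp_pos _).le
    (add_nonneg (Chebyshev.psi_nonneg _) (Real.exp_pos _).le)
  rw [Real.exp_le_exp, neg_re, mul_re, ofReal_re, ofReal_im, mul_zero, sub_zero]
  have h1 : -s.re ≤ ‖s‖ := (neg_le_abs _).trans (Complex.abs_re_le_norm s)
  calc -(s.re * v) = (-s.re) * v := by ring
    _ ≤ ‖s‖ * v := mul_le_mul_of_nonneg_right h1 hv.1.le
    _ ≤ ‖s‖ * θ := mul_le_mul_of_nonneg_left hv.2 (norm_nonneg _)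

theorem PE_ii (s : ℂ) {θ : ℝ} (hθ : 0 < θ) :
    IntervalIntegrable (fun v : ℝ => (Ev v : ℂ) * cexp (-(s * v))) volume 0 θ := by
  have hm : Measurable (fun v : ℝ => (Ev v : ℂ)) := Complex.measurable_ofReal.comp Ev_meas
  have hcont : Continuous (fun v : ℝ => cexp (-(s * v))) := by fun_prop
  rw [intervalIntegrable_iff]
  refine Integrable.mono' (g := fun _ => (Chebyshev.psi (Real.exp θ) + Real.exp θ) * Real.exp (‖s‖ * θ))
    (intervalIntegrable_iff.1 intervalIntegrable_const) (hm.mul hcont.measurable).aestronglyMeasurable ?_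
  filter_upwards [ae_restrict_mem measurableSet_uIoc] with v hv
  exact PE_bd s hv hθ

theorem PE_diff {θ : ℝ} (hθ : 0 < θ) : Differentiable ℂ (PE θ) := by
  intro s0
  have hm : Measurable (fun v : ℝ => (Ev v : ℂ)) := Complex.measurable_ofReal.comp Ev_meas
  have hcont : ∀ s : ℂ, Continuous (fun v : ℝ => cexp (-(s * v))) := fun s => by fun_prop
  have hmeas : ∀ s : ℂ, AEStronglyMeasurable
      (fun v : ℝ => (Ev v : ℂ) * cexp (-(s * v))) (volume.restrict (uIoc 0 θ)) :=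
    fun s => (hm.mul (hcont s).measurable).aestronglyMeasurable
  have hG : 0 ≤ Chebyshev.psi (Real.exp θ) + Real.exp θ := add_nonneg (Chebyshev.psi_nonneg _) (Real.exp_pos _).le
  have key := intervalIntegral.hasDerivAt_integral_of_dominated_loc_of_deriv_le
    (F := fun (s : ℂ) (v : ℝ) => (Ev v : ℂ) * cexp (-(s * v)))
    (F' := fun (s : ℂ) (v : ℝ) => (-(v : ℂ)) * ((Ev v : ℂ) * cexp (-(s * v))))
    (x₀ := s0) (s := Metric.ball s0 1) (a := 0) (b := θ) (μ := volume)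
    (bound := fun _ => θ * ((Chebyshev.psi (Real.exp θ) + Real.exp θ) * Real.exp ((‖s0‖ + 1) * θ)))
    (Metric.ball_mem_nhds s0 one_pos) (Eventually.of_forall hmeas) (PE_ii s0 hθ)
    (by
      have hv : Measurable (fun v : ℝ => -(v : ℂ)) := Complex.measurable_ofReal.neg
      exact hv.aestronglyMeasurable.mul (hmeas s0))
    (Eventually.of_forall fun v hv s hs => by
      have h1 := PE_bd s hv hθ
      have h2 := hv
      rw [uIoc_of_le hθ.le] at h2
      rw [norm_mul, norm_neg, Complex.norm_real, Real.norm_eq_abs, abs_of_pos h2.1]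
      refine mul_le_mul h2.2 (h1.trans ?_) (norm_nonneg _) hθ.le
      refine mul_le_mul_of_nonneg_left ?_ hG
      rw [Real.exp_le_exp]
      refine mul_le_mul_of_nonneg_right ?_ hθ.le
      have h3 : ‖s - s0‖ < 1 := by
        rw [← dist_eq_norm]
        exact hs
      have h4 : ‖s‖ ≤ ‖s0‖ + ‖s - s0‖ := by
        have := norm_add_le s0 (s - s0)
        rwa [add_sub_cancel] at this
      linarith)
    intervalIntegrable_const
    (Eventually.of_forall fun v _ s _ => by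
      have h1 : HasDerivAt (fun s : ℂ => -(s * (v : ℂ))) (-(v : ℂ)) s := by
        have h2 := ((hasDerivAt_id s).mul_const (v : ℂ)).neg
        rw [one_mul] at h2
        exact h2
      have h2 := (h1.cexp).const_mul (Ev v : ℂ)
      have h3 : -(v : ℂ) * ((Ev v : ℂ) * cexp (-(s * v))) =
          (Ev v : ℂ) * (cexp (-(s * v)) * -(v : ℂ)) := by ring
      rw [h3]
      exact h2)
  exact key.2.differentiableAt

theorem PE_norm {θ R1 : ℝ} (hθ : 0 < θ) (hθ2 : θ ≤ 5 / 2) {s : ℂ} (hs : ‖s‖ ≤ R1) :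
    ‖PE θ s‖ ≤ (Chebyshev.psi (Real.exp (5 / 2)) + Real.exp (5 / 2)) * Real.exp (R1 * (5 / 2)) * (5 / 2) := by
  have h0 : ∀ v ∈ uIoc (0 : ℝ) θ, ‖(Ev v : ℂ) * cexp (-(s * v))‖ ≤
      (Chebyshev.psi (Real.exp (5 / 2)) + Real.exp (5 / 2)) * Real.exp (R1 * (5 / 2)) := by
    intro v hv
    refine (PE_bd s hv hθ).trans ?_
    have h1 : Chebyshev.psi (Real.exp θ) ≤ Chebyshev.psi (Real.exp (5 / 2)) := Chebyshev.psi_mono (Real.exp_le_exp.2 hθ2)
    have h2 : Real.exp θ ≤ Real.exp (5 / 2) := Real.exp_le_exp.2 hθ2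
    have h3 : ‖s‖ * θ ≤ R1 * (5 / 2) := mul_le_mul hs hθ2 hθ.le ((norm_nonneg s).trans hs)
    have h4 := Chebyshev.psi_nonneg (Real.exp θ)
    have h5 := Real.exp_le_exp.2 h3
    gcongr
  have h1 := intervalIntegral.norm_integral_le_of_norm_le_const h0
  refine h1.trans ?_
  rw [sub_zero, abs_of_pos hθ]
  have := Chebyshev.psi_nonneg (Real.exp (5 / 2))
  gcongr

/-- `(s - ρ)` times the Laplace transform of `Fq θ` -/
noncomputable def Phi (ρ : ℂ) (m : ℕ) (θ : ℝ) (s : ℂ) : ℂ :=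
  -((cexp (s * θ) - 1) / s * (LL ZZ ρ m s + (s - ρ))) - (s - ρ) * (cexp (s * θ) * PE θ s)

theorem Phi_eq {ρ : ℂ} {m : ℕ} {θ : ℝ} (hθ : 0 < θ) (hρ : ρ.re ≤ 1) {s : ℂ} (hs : 1 < s.re) :
    Phi ρ m θ s = (s - ρ) * ∫ v in Ioi (0 : ℝ), (Fq θ v : ℂ) * cexp (-(s * v)) := by
  have hs0 : s ≠ 0 := by
    rintro rfl
    simp only [zero_re] at hs
    linarith
  have hs1 : s ≠ 1 := by
    rintro rfl
    simp only [one_re] at hs
    linarith
  have hsρ : s ≠ ρ := by
    rintro rfl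
    linarith
  have hζ : riemannZeta s ≠ 0 := riemannZeta_ne_zero_of_one_lt_re hs
  have hev : ZZ =ᶠ[𝓝 s] fun s => (s - 1) * riemannZeta s := by
    filter_upwards [isOpen_ne.mem_nhds hs0, isOpen_ne.mem_nhds hs1] with s h1 h2
    exact ZZ_eq h1 h2
  have hd : deriv ZZ s = riemannZeta s + (s - 1) * deriv riemannZeta s := by
    rw [hev.deriv_eq]
    have h1 : HasDerivAt (fun s : ℂ => s - 1) 1 s := (hasDerivAt_id s).sub_const 1
    have h2 := (differentiableAt_riemannZeta hs1).hasDerivAt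
    have h3 := (h1.mul h2).deriv
    rw [one_mul] at h3
    exact h3
  have hs1' : s - 1 ≠ 0 := sub_ne_zero.2 hs1
  have h1s : 1 - s ≠ 0 := sub_ne_zero.2 hs1.symm
  -- `PE` and the integral of `ψ`
  have hexp : ∫ v in (0 : ℝ)..θ, cexp ((1 - s) * v) = (cexp ((1 - s) * θ) - 1) / (1 - s) := by
    rw [integral_exp_mul_complex h1s]
    simp
  have hPi : IntervalIntegrable (fun v : ℝ => cexp ((1 - s) * v)) volume 0 θ :=
    Continuous.intervalIntegrable (by fun_prop) _ _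
  have hPE : PE θ s = (∫ v in (0 : ℝ)..θ, (Chebyshev.psi (Real.exp v) : ℂ) * cexp (-(s * v))) -
      (cexp ((1 - s) * θ) - 1) / (1 - s) := by
    have h1 : ∀ v : ℝ, (Chebyshev.psi (Real.exp v) : ℂ) * cexp (-(s * v)) =
        (Ev v : ℂ) * cexp (-(s * v)) + cexp ((1 - s) * v) := by
      intro v
      have e2 : cexp ((1 - s) * v) = cexp v * cexp (-(s * v)) := by
        rw [← Complex.exp_add]
        congr 1
        ring
      rw [e2, Ev]
      push_cast
      ring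
    simp only [h1]
    rw [intervalIntegral.integral_add (PE_ii s hθ) hPi, hexp, PE]
    ring
  rw [Fq_mellin hθ hs, Phi, hPE, LL, if_neg hsρ, hd, ZZ_eq hs0 hs1]
  have e1 : cexp ((1 - s) * θ) = cexp θ * cexp (-(s * θ)) := by
    rw [← Complex.exp_add]
    congr 1
    ring
  have e2 : cexp (s * θ) * cexp (-(s * θ)) = 1 := by
    rw [← Complex.exp_add, add_neg_cancel, Complex.exp_zero]
  have e3 : ((Real.exp θ : ℝ) : ℂ) = cexp θ := by push_cast; rfl
  rw [e1, e3]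
  generalize (∫ v in (0 : ℝ)..θ, (Chebyshev.psi (Real.exp v) : ℂ) * cexp (-(s * v))) = P
  have e4 : cexp (-(s * θ)) = (cexp (s * θ))⁻¹ := Complex.exp_neg _
  rw [e4]
  have e5 : cexp (s * θ) ≠ 0 := Complex.exp_ne_zero _
  generalize cexp (s * θ) = E at e5 ⊢
  generalize cexp (θ : ℂ) = E1
  have e6 : (1 : ℂ) - s = -(s - 1) := by ring
  rw [e6]
  field_simp
  ring

theorem Phi_diff {ρ c : ℂ} {m : ℕ} {θ r : ℝ} (hθ : 0 < θ) (hL : DifferentiableOn ℂ (LL ZZ ρ m) (ball c r))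
    (h0 : ∀ z ∈ ball c r, z ≠ 0) : DifferentiableOn ℂ (Phi ρ m θ) (ball c r) := by
  have h1 : DifferentiableOn ℂ (fun s : ℂ => (cexp (s * θ) - 1) / s) (ball c r) := by
    refine DifferentiableOn.div ?_ differentiableOn_id h0
    exact Differentiable.differentiableOn (by fun_prop)
  have h2 : DifferentiableOn ℂ (fun s : ℂ => s - ρ) (ball c r) := by fun_prop
  have h3 : DifferentiableOn ℂ (fun s : ℂ => cexp (s * θ) * PE θ s) (ball c r) := by
    refine DifferentiableOn.mul ?_ (PE_diff hθ).differentiableOn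
    exact Differentiable.differentiableOn (by fun_prop)
  exact ((h1.mul (hL.add h2)).neg).sub (h2.mul h3)

end Pool.Agent.Lib.MP_2a816b_nt.LM
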