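import Pool.Agent.Lib.MP_2a816b_nt.LM.NZ
import Pool.Agent.Lib.MP_2a816b_nt.PV.ExQ

/-!
# If the Riemann Hypothesis fails, the mean of `RR α T` over a fixed interval of `α` exceeds every power of `T`
-/

open Set Filter Topology MeasureTheory

namespace Pool.Agent.Lib.MP_2a816b_nt.LM

open Pool.Agent.Lib.MP_2a816b_nt.PV

/-- Cauchy-Schwarz in the form needed -/
theorem energy {θ κ c x y : ℝ} (hθ : 0 ≤ θ) (hθ2 : θ ≤ 5 / 2) (hx : 0 ≤ x) (hxy : x < y) (hc : 0 < c) (hκ : 1 / 2 < κ)
    (h : c ≤ ∫ v in x..y, |Fq θ v| * Real.exp (-(κ * v))) :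
    Real.exp ((2 * κ - 1) * x) * (c ^ 2 / (y - x)) ≤ ∫ v in x..y, Real.exp (-v) * Fq θ v ^ 2 := by
  have hyx : 0 < y - x := by linarith
  set l : ℝ := c / (y - x) with hl
  have hl0 : 0 < l := by positivity
  have hFi : ∀ k : ℝ, 0 ≤ k → IntervalIntegrable (fun v => Real.exp (-(k * v)) * Fq θ v ^ 2) volume x y :=
    fun k hk => ExQ_ii hk hθ hθ2 hx hxy.le
  have h1 : ∫ v in x..y, |Fq θ v| * Real.exp (-(κ * v)) ≤
      ∫ v in x..y, (l / 2 + 1 / (2 * l) * (Real.exp (-((2 * κ) * v)) * Fq θ v ^ 2)) := by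
    apply intervalIntegral.integral_mono_on hxy.le
    · rw [intervalIntegrable_iff_integrableOn_Ioc_of_le hxy.le]
      refine Measure.integrableOn_of_bounded
        (M := ((Real.log 4 + 5) * Real.exp (5 / 2)) * Real.exp y * 1) (by simp) ?_ ?_
      · have : Measurable (fun v => |Fq θ v| * Real.exp (-(κ * v))) := by
          have := (Man_meas θ).abs
          fun_prop
        exact this.aestronglyMeasurable
      · rw [ae_restrict_iff' measurableSet_Ioc]
        refine Eventually.of_forall fun v hv => ?_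
        rw [Real.norm_eq_abs, abs_of_nonneg (by positivity)]
        have h2 := Fq_bdd (v := v) hθ hθ2
        have h3 : Real.exp (-(κ * v)) ≤ 1 := by
          rw [Real.exp_le_one_iff]
          have : 0 ≤ κ * v := mul_nonneg (by linarith) (hx.trans hv.1.le)
          linarith
        have h4 : Real.exp v ≤ Real.exp y := Real.exp_le_exp.2 hv.2
        have h5 : 0 ≤ Real.log 4 := Real.log_nonneg (by norm_num)
        calc |Fq θ v| * Real.exp (-(κ * v)) ≤ (((Real.log 4 + 5) * Real.exp (5 / 2)) * Real.exp v) * 1 := by gcongr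
          _ ≤ _ := by gcongr
    · exact (by simp : IntervalIntegrable (fun _ : ℝ => l / 2) volume x y).add ((hFi (2 * κ) (by linarith)).const_mul _)
    · intro v _
      have e1 : Real.exp (-((2 * κ) * v)) * Fq θ v ^ 2 = (|Fq θ v| * Real.exp (-(κ * v))) ^ 2 := by
        rw [mul_pow, sq_abs, ← Real.exp_nat_mul]
        rw [mul_comm]
        congr 2
        push_cast
        ring
      rw [e1]
      generalize |Fq θ v| * Real.exp (-(κ * v)) = w
      have h2 : l / 2 + 1 / (2 * l) * w ^ 2 - w = (w - l) ^ 2 / (2 * l) := by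
        field_simp
        ring
      have h3 : 0 ≤ (w - l) ^ 2 / (2 * l) := by positivity
      linarith
  rw [intervalIntegral.integral_add (by simp) ((hFi (2 * κ) (by linarith)).const_mul _), intervalIntegral.integral_const,
    smul_eq_mul, intervalIntegral.integral_const_mul] at h1
  set E : ℝ := ∫ v in x..y, Real.exp (-((2 * κ) * v)) * Fq θ v ^ 2 with hE
  have h2 : c ^ 2 / (y - x) ≤ E := by
    have e1 : (y - x) * (l / 2) = c / 2 := by
      rw [hl]; field_simp
    have e2 : 1 / (2 * l) = (y - x) / (2 * c) := by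
      rw [hl]; field_simp
    rw [e1, e2] at h1
    have h3 : c / 2 ≤ (y - x) / (2 * c) * E := by linarith
    rw [div_le_iff₀ hyx]
    have h4 := mul_le_mul_of_nonneg_left h3 (show 0 ≤ 2 * c by positivity)
    have e3 : 2 * c * ((y - x) / (2 * c) * E) = E * (y - x) := by field_simp
    rw [e3] at h4
    nlinarith
  calc Real.exp ((2 * κ - 1) * x) * (c ^ 2 / (y - x)) ≤ Real.exp ((2 * κ - 1) * x) * E := by gcongr
    _ = ∫ v in x..y, Real.exp ((2 * κ - 1) * x) * (Real.exp (-((2 * κ) * v)) * Fq θ v ^ 2) := by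
        rw [intervalIntegral.integral_const_mul]
    _ ≤ ∫ v in x..y, Real.exp (-v) * Fq θ v ^ 2 := by
        have h0 := hFi 1 zero_le_one
        simp only [one_mul] at h0
        refine intervalIntegral.integral_mono_on hxy.le ((hFi (2 * κ) (by linarith)).const_mul _) h0 fun v hv => ?_
        rw [← mul_assoc, ← Real.exp_add]
        apply mul_le_mul_of_nonneg_right _ (sq_nonneg _)
        apply Real.exp_le_exp.2
        nlinarith [hv.1]

/-- Failure of the Riemann Hypothesis: huge variance for every large `T`. -/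
theorem R_false (h : ¬ RiemannHypothesis) (K a0 : ℝ) (ha0 : 1 ≤ a0) :
    ∃ a' b' : ℝ, a0 ≤ a' ∧ a' < b' ∧ ∀ᶠ T : ℝ in atTop, T ^ K ≤ ∫ α in a'..b', RR α T := by
  obtain ⟨a, b, κ, c, ha, hab, hκ, hc, n0, hn⟩ := NZ h
  obtain ⟨C, hC0, hC⟩ := avgPhi
  set μ : ℝ := 2 * κ - 1 with hμ
  have hμ0 : 0 < μ := by rw [hμ]; linarith
  set a' : ℝ := max a0 ((K + 3) / μ) with ha'
  have ha'0 : a0 ≤ a' := le_max_left _ _
  have ha'1 : 1 ≤ a' := ha0.trans ha'0
  have ha'K : K + 3 ≤ μ * a' := by
    have h1 : (K + 3) / μ ≤ a' := le_max_right _ _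
    rw [div_le_iff₀ hμ0] at h1
    linarith
  set b' : ℝ := b / a * a' + 1 with hb'
  have hb0 : 0 < b := ha.trans hab
  have hba : 1 < b / a := (one_lt_div ha).2 hab
  have hab' : a' < b' := by
    rw [hb']
    have : a' ≤ b / a * a' := le_mul_of_one_le_left (by linarith) hba.le
    linarith
  -- the constant in the last comparison
  set C4 : ℝ := (b - a) * (a' / a + 1) * (C + 1) / c ^ 2 with hC4
  have hba0 : 0 < b - a := by linarith
  have hC40 : 0 < C4 := by positivity
  refine ⟨a', b', ha'0, hab', ?_⟩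
  filter_upwards [eventually_ge_atTop (10 : ℝ), Real.tendsto_log_atTop.eventually_ge_atTop (b + 6 + 1),
    Real.tendsto_log_atTop.eventually_ge_atTop (a * n0), eventually_ge_atTop ((8 * C4) ^ 2), eventually_ge_atTop (2 : ℝ)] with T hT10 hTb hTn hTC hT2
  have hT0 : 0 < T := by linarith
  have hlog1 : 1 ≤ Real.log T := by linarith
  have hlog0 : 0 < Real.log T := by linarith
  set n : ℕ := ⌈a' * Real.log T / a⌉₊ with hn'
  have hn1 : a' * Real.log T / a ≤ n := Nat.le_ceil _
  have hn2 : (n : ℝ) < a' * Real.log T / a + 1 := Nat.ceil_lt_add_one (by positivity)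
  have han : a' * Real.log T ≤ a * n := by
    rw [div_le_iff₀ ha] at hn1
    linarith
  have hbn : b * n ≤ b' * Real.log T - 6 := by
    have h1 : b * n ≤ b * (a' * Real.log T / a + 1) := mul_le_mul_of_nonneg_left hn2.le hb0.le
    have h2 : b * (a' * Real.log T / a + 1) = b / a * a' * Real.log T + b := by field_simp
    rw [hb', add_mul, one_mul]
    linarith
  have hn0' : n0 ≤ n := by
    have h1 : (n0 : ℝ) ≤ n := by
      have h2 : a * n0 ≤ a * n := by
        refine (hTn.trans ?_).trans han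
        exact le_mul_of_one_le_left hlog0.le ha'1
      exact le_of_mul_le_mul_left h2 ha
    exact_mod_cast h1
  have hnpos : (0 : ℝ) < n := lt_of_lt_of_le (by positivity) hn1
  have hx0 : 0 ≤ a * n := by positivity
  have hxy : a * n < b * n := mul_lt_mul_of_pos_right hab hnpos
  have h1 := hC T hT10 a' b' ha'1 hab'.le (a * n) (b * n) han hxy.le hbn
  set E0 : ℝ := Real.exp (μ * (a * n)) * (c ^ 2 / (b * n - a * n)) with hE0
  have h2 : E0 ≤ ∫ θ in (3 / 2 : ℝ)..(5 / 2), ∫ v in (a * n)..(b * n), Real.exp (-v) * Fq θ v ^ 2 := by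
    have h3 : ∫ _θ in (3 / 2 : ℝ)..(5 / 2), E0 ≤ ∫ θ in (3 / 2 : ℝ)..(5 / 2), ∫ v in (a * n)..(b * n), Real.exp (-v) * Fq θ v ^ 2 := by
      have h0 := ExQ_Pii (c := 1) zero_le_one (a := a * n) (b := b * n) hx0 hxy.le
      simp only [ExQ_f, one_mul] at h0
      refine intervalIntegral.integral_mono_on (by norm_num) (by simp) h0 fun θ hθ => ?_
      exact energy (by linarith [hθ.1]) hθ.2 hx0 hxy hc hκ (hn n hn0' θ hθ.1 hθ.2)
    rw [intervalIntegral.integral_const, smul_eq_mul] at h3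
    linarith
  set Q : ℝ := ∫ α in a'..b', RR α T with hQ
  have hQ0 : 0 ≤ Q := intervalIntegral.integral_nonneg hab'.le fun α _ => RR_nonneg hT2 α
  have h3 : E0 ≤ (C + 1) * (T * Real.log T ^ 2) * Q := by
    refine (h2.trans h1).trans ?_
    have h30 : C ≤ C + 1 := by linarith
    gcongr
  -- lower bound for `E0`
  have h4 : T ^ (K + 3) ≤ Real.exp (μ * (a * n)) := by
    rw [Real.rpow_def_of_pos hT0, Real.exp_le_exp]
    have h5 : μ * (a' * Real.log T) ≤ μ * (a * n) := mul_le_mul_of_nonneg_left han hμ0.le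
    have h50 : (K + 3) * Real.log T ≤ (μ * a') * Real.log T := mul_le_mul_of_nonneg_right ha'K hlog0.le
    calc Real.log T * (K + 3) = (K + 3) * Real.log T := mul_comm _ _
      _ ≤ (μ * a') * Real.log T := h50
      _ = μ * (a' * Real.log T) := by ring
      _ ≤ _ := h5
  have hn3 : (n : ℝ) ≤ (a' / a + 1) * Real.log T := by
    have : a' * Real.log T / a = a' / a * Real.log T := by ring
    rw [this] at hn2
    rw [add_mul, one_mul]
    linarith
  have h5 : T ^ (K + 3) * c ^ 2 ≤ (C + 1) * (T * Real.log T ^ 2) * Q * ((b - a) * ((a' / a + 1) * Real.log T)) := by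
    have h6 : T ^ (K + 3) * (c ^ 2 / (b * n - a * n)) ≤ E0 := by
      rw [hE0]
      have : 0 < b * n - a * n := by linarith
      gcongr
    have h7 : 0 < b * n - a * n := by linarith
    have h8 : T ^ (K + 3) * c ^ 2 = T ^ (K + 3) * (c ^ 2 / (b * n - a * n)) * (b * n - a * n) := by field_simp
    rw [h8]
    have h9 : b * n - a * n ≤ (b - a) * ((a' / a + 1) * Real.log T) := by
      rw [← sub_mul]
      exact mul_le_mul_of_nonneg_left hn3 hba0.le
    have h10 : 0 ≤ (C + 1) * (T * Real.log T ^ 2) * Q := by positivity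
    calc T ^ (K + 3) * (c ^ 2 / (b * n - a * n)) * (b * n - a * n)
        ≤ ((C + 1) * (T * Real.log T ^ 2) * Q) * (b * n - a * n) :=
          mul_le_mul_of_nonneg_right (h6.trans h3) h7.le
      _ ≤ _ := mul_le_mul_of_nonneg_left h9 h10
  have h6 : T ^ (K + 3) ≤ C4 * (T * Real.log T ^ 3) * Q := by
    have h7 : C4 * (T * Real.log T ^ 3) * Q * c ^ 2 =
        (C + 1) * (T * Real.log T ^ 2) * Q * ((b - a) * ((a' / a + 1) * Real.log T)) := by
      rw [hC4]
      field_simp
    have h8 : T ^ (K + 3) * c ^ 2 ≤ C4 * (T * Real.log T ^ 3) * Q * c ^ 2 := by rw [h7]; exact h5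
    exact le_of_mul_le_mul_right h8 (by positivity)
  -- the logarithms
  have h7 : Real.log T ≤ 2 * Real.sqrt T := by
    have := Real.log_le_rpow_div hT0.le (show (0 : ℝ) < 1 / 2 by norm_num)
    rw [← Real.sqrt_eq_rpow] at this
    linarith
  have hs0 : 0 < Real.sqrt T := Real.sqrt_pos.2 hT0
  have hss : Real.sqrt T * Real.sqrt T = T := Real.mul_self_sqrt hT0.le
  have h8 : Real.log T ^ 3 ≤ 8 * (T * Real.sqrt T) := by
    calc Real.log T ^ 3 ≤ (2 * Real.sqrt T) ^ 3 := pow_le_pow_left₀ hlog0.le h7 3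
      _ = 8 * ((Real.sqrt T * Real.sqrt T) * Real.sqrt T) := by ring
      _ = _ := by rw [hss]
  have h9 : 8 * C4 ≤ Real.sqrt T := Real.le_sqrt_of_sq_le hTC
  have h10 : C4 * (T * Real.log T ^ 3) ≤ T ^ 3 := by
    calc C4 * (T * Real.log T ^ 3) ≤ C4 * (T * (8 * (T * Real.sqrt T))) := by gcongr
      _ = (8 * C4) * Real.sqrt T * T ^ 2 := by ring
      _ ≤ Real.sqrt T * Real.sqrt T * T ^ 2 := by gcongr
      _ = T ^ 3 := by rw [hss]; ring
  have h11 : T ^ (K + 3) = T ^ K * T ^ 3 := by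
    rw [Real.rpow_add hT0]
    norm_cast
  rw [h11] at h6
  have h12 : T ^ K * T ^ 3 ≤ T ^ 3 * Q := h6.trans (mul_le_mul_of_nonneg_right h10 hQ0)
  have h13 : 0 < T ^ 3 := by positivity
  have h14 : T ^ 3 * T ^ K ≤ T ^ 3 * Q := by linarith
  exact le_of_mul_le_mul_left h14 h13

end Pool.Agent.Lib.MP_2a816b_nt.LM
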