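import Pool.Agent.Lib.MP_2a816b_nt.LM.Fin

/-!
# Long means of the normalised variance: rates
-/

open Set Filter Topology MeasureTheory

namespace Pool.Agent.Lib.MP_2a816b_nt.LM

open Pool.Agent.Lib.MP_00e05b_nt Pool.Agent.Lib.MP_00e05b_nt.Mont Pool.Agent.Lib.MP_2a816b_nt.PV

/-- RH case -/
theorem lower_true_rate (hRH : RiemannHypothesis) {b : ℝ} (hb : 1 ≤ b) :
    ∃ C : ℝ, 0 < C ∧ ∀ l : ℝ, 1 ≤ l → ∀ᶠ T : ℝ in atTop, 1 - C / l ≤ MM b l T := by
  obtain ⟨K0, hK0⟩ := RR_bdd hRH b
  set K : ℝ := max K0 0 with hK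
  have hKn : 0 ≤ K := le_max_right _ _
  refine ⟨2 * (b * K + K + 1), by positivity, fun l hl1 => ?_⟩
  have hl0 : 0 < l := by linarith
  set η : ℝ := 2 * (b * K + K + 1) / l with hη
  have hlη : 2 * (b * K + K + 1) ≤ η * l := by
    rw [hη, div_mul_cancel₀ _ hl0.ne']
  set A : ℝ := b + l with hA
  have hA1 : 1 < A := by linarith
  filter_upwards [LB_mean hRH hA1 (ε := 1 / 6) (by norm_num), hK0, RR_ii, eventually_ge_atTop (2 : ℝ)] with T h1 h2 h3 hT2
  have hg : IntervalIntegrable (fun α => RR α T - 1) volume 1 A := (h3 _ _).sub (by simp)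
  have hp := mean_parts hA1 hg
  have hA0 : 0 < A := by linarith
  have e1 : ∫ α in (1 : ℝ)..A, (RR α T - 1) * (1 - α / A) = 1 / A * ∫ α in (1 : ℝ)..A, (A - α) * (RR α T - 1) := by
    rw [← intervalIntegral.integral_const_mul]
    congr 1
    funext α
    field_simp
  have e2 : ∫ α in (1 : ℝ)..A, (A - α) * (RR α T - 1) = ∫ y in (1 : ℝ)..A, ∫ α in (1 : ℝ)..y, (RR α T - 1) := by
    rw [e1] at hp
    have h4 : (1 : ℝ) / A ≠ 0 := by positivity
    exact mul_left_cancel₀ h4 hp
  have e3 : ∫ α in (1 : ℝ)..A, (A - α) * (RR α T - 1) =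
      (∫ α in (1 : ℝ)..A, (A - α) * RR α T) - (A - 1) ^ 2 / 2 := by
    have h4 : ∀ α : ℝ, (A - α) * (RR α T - 1) = (A - α) * RR α T - (A - α) := fun α => by ring
    simp only [h4]
    rw [intervalIntegral.integral_sub (wRR_ii hT2 A 1 A) (Continuous.intervalIntegrable (by fun_prop) _ _),
      intervalIntegral.integral_sub (by simp) (by simp), intervalIntegral.integral_const, integral_id, smul_eq_mul]
    ring
  have e4 : ∫ α in (1 : ℝ)..A, (A - α) * RR α T = (∫ α in (1 : ℝ)..b, (A - α) * RR α T) + ∫ α in b..A, (A - α) * RR α T :=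
    (intervalIntegral.integral_add_adjacent_intervals (wRR_ii hT2 A 1 b) (wRR_ii hT2 A b A)).symm
  have h5 : ∫ α in (1 : ℝ)..b, (A - α) * RR α T ≤ A * K := by
    calc ∫ α in (1 : ℝ)..b, (A - α) * RR α T ≤ ∫ α in (1 : ℝ)..b, A * RR α T := by
          refine intervalIntegral.integral_mono_on hb (wRR_ii hT2 A 1 b) ((h3 1 b).const_mul _) fun α hα => ?_
          have h6 := RR_nonneg hT2 α
          exact mul_le_mul_of_nonneg_right (by linarith [hα.1]) h6
      _ = A * ∫ α in (1 : ℝ)..b, RR α T := by rw [intervalIntegral.integral_const_mul]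
      _ ≤ A * K := mul_le_mul_of_nonneg_left (h2.trans (le_max_left _ _)) hA0.le
  have h6 : (1 - η) * (l ^ 2 / 2) ≤ ∫ α in b..A, (A - α) * RR α T := by
    have h7 : l ^ 2 ≤ (A - 1) ^ 2 := pow_le_pow_left₀ hl0.le (by linarith) 2
    have h8 : l * (b * K + K + 1) ≤ l * (η * l / 2) := mul_le_mul_of_nonneg_left (by linarith) hl0.le
    have h9 : A * K + 1 ≤ l * (b * K + K + 1) := by
      rw [hA]
      have h10 : 0 ≤ (l - 1) * (b * K) := mul_nonneg (by linarith) (by positivity)
      nlinarith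
    nlinarith
  unfold MM
  rw [← hA]
  calc 1 - η = 2 / l ^ 2 * ((1 - η) * (l ^ 2 / 2)) := by field_simp
    _ ≤ 2 / l ^ 2 * ∫ α in b..A, (A - α) * RR α T := mul_le_mul_of_nonneg_left h6 (by positivity)

/-- Under the Riemann Hypothesis long means are at most `4/3` up to small errors. -/
theorem upper_true_exp (hRH : RiemannHypothesis) {b η : ℝ} (hb : 1 ≤ b) (hη : 0 < η) (hη1 : η ≤ 1) {l : ℝ}
    (hl : max (32 * (b + 1) / η) (16 / η) ≤ l) : ∀ᶠ T : ℝ in atTop, MM b l T ≤ 4 / 3 + η := by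
  obtain ⟨W, hW⟩ := exists_EB (1 / 8) (by norm_num)
  -- parameters
  set N : ℕ := ⌈32 / η⌉₊ with hN
  have hN1 : 32 / η ≤ N := Nat.le_ceil _
  have hN0 : (0 : ℝ) < N := lt_of_lt_of_le (by positivity) hN1
  have hNpos : 0 < N := by exact_mod_cast hN0
  have hl1 : 32 * (b + 1) / η ≤ l := (le_max_left _ _).trans hl
  have hl2 : 16 / η ≤ l := (le_max_right _ _).trans hl
  have hl0 : 0 < l := lt_of_lt_of_le (by positivity) hl2
  have hl16 : 16 ≤ l := by
    refine le_trans ?_ hl2
    rw [le_div_iff₀ hη]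
    linarith
  set h : ℝ := l / N with hh
  have hh0 : 0 < h := by positivity
  have hNh : (N : ℝ) * h = l := by rw [hh]; field_simp
  set A : ℝ := b + h + 1 / 4 + N * h with hA
  have hA1 : 1 ≤ A := by
    have : 0 ≤ (N : ℝ) * h := by positivity
    linarith
  have hA0 : 0 < A := by linarith
  set M : ℝ := (A ^ 2 / 2 * (4 / 3 + η / 8) + 2) / h with hM
  have hM0 : 0 ≤ M := by positivity
  -- the bound for `FF`
  have hF : ∀ᶠ t : ℝ in atTop, ∑ j ∈ Finset.range N, ∫ α in (b - 1 / 2 - 1 / 4)..(b + ((j : ℝ) + 1) * h + 1 / 4), FF α t ≤ M := by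
    filter_upwards [F_long hRH (ε := η / 8) (by positivity), eventually_gt_atTop (1 : ℝ)] with t h1 ht
    have hc := FF_continuous (T := t) (by linarith)
    have hg : ∀ x y : ℝ, IntervalIntegrable (fun α => FF α t) volume x y := fun x y => hc.intervalIntegrable _ _
    have hg0 : ∀ x, 0 ≤ FF x t := fun x => FF_nonneg ht x
    have h2 := riemann_low hg hg0 (c := b + h + 1 / 4) (h := h) (by linarith) hh0.le N
    have h3 : ∑ j ∈ Finset.range N, h * ∫ α in (b - 1 / 2 - 1 / 4)..(b + ((j : ℝ) + 1) * h + 1 / 4), FF α t ≤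
        ∑ j ∈ Finset.range N, h * ∫ α in (0 : ℝ)..(b + h + 1 / 4 + j * h), FF α t := by
      refine Finset.sum_le_sum fun j _ => mul_le_mul_of_nonneg_left ?_ hh0.le
      have e : b + ((j : ℝ) + 1) * h + 1 / 4 = b + h + 1 / 4 + j * h := by ring
      rw [e]
      have hj : 0 ≤ (j : ℝ) * h := by positivity
      apply intervalIntegral.integral_mono_interval (by linarith) (by linarith) le_rfl
      · exact Eventually.of_forall fun α => hg0 α
      · exact hg _ _
    have h4 := h1 A hA1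
    have h5 : ∫ α in (0 : ℝ)..A, FF α t * (1 - α / A) = (1 / A) * ∫ α in (0 : ℝ)..A, (A - α) * FF α t := by
      rw [← intervalIntegral.integral_const_mul]
      congr 1
      funext α
      field_simp
    rw [h5] at h4
    have h6 : ∫ α in (0 : ℝ)..A, (A - α) * FF α t ≤ A ^ 2 / 2 * (4 / 3 + η / 8) + 2 := by
      have h7 : 2 / A * (1 / A * ∫ α in (0 : ℝ)..A, (A - α) * FF α t) = (2 / A ^ 2) * ∫ α in (0 : ℝ)..A, (A - α) * FF α t := by
        field_simp
      rw [h7, div_mul_eq_mul_div, div_le_iff₀ (by positivity)] at h4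
      have h8 : (4 / 3 + η / 8 + 4 / A ^ 2 * (7 / 12 + η / 8)) * A ^ 2 =
          A ^ 2 * (4 / 3 + η / 8) + 4 * (7 / 12 + η / 8) := by field_simp
      rw [h8] at h4
      linarith
    rw [hM, le_div_iff₀ hh0, mul_comm, Finset.mul_sum]
    exact h3.trans (h2.trans h6)
  have hS := S_upper hRH hW (δ := 1 / 2) (κ := 1 / l) (B := b + l) (by norm_num) (by norm_num) (by positivity)
  have hMq := Mq_sum hRH hW (N := N) (y := fun j => b + ((j : ℝ) + 1) * h) (x := b - 1 / 2) (k := 1 / 4) (M := M)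
    (κ := 1 / (2 * h)) (by norm_num) (fun j _ => by
      have : 0 ≤ ((j : ℝ) + 1) * h := by positivity
      linarith) hM0 (by positivity) hF
  filter_upwards [hS, hMq, eventually_ge_atTop (2 : ℝ)] with T h1 h2 hT2
  have hii : ∀ x y : ℝ, IntervalIntegrable (fun α => RR α T) volume x y := by
    intro x y
    rcases le_total x y with h | h
    · exact (star_avg hT2 h).1
    · exact (star_avg hT2 h).1.symm
  have h3 := riemann_up hii (fun x => RR_nonneg hT2 x) (b := b) hh0.le N
  rw [hNh] at h3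
  have h4 : ∑ j ∈ Finset.range N, h * ∫ α in b..(b + ((j : ℝ) + 1) * h), RR α T ≤
      ∑ j ∈ Finset.range N, h * ((Real.pi * (T * Real.log T ^ 2) * II W)⁻¹ *
        Mq W ((b - 1 / 2) * Real.log T - 2) ((b + ((j : ℝ) + 1) * h) * Real.log T + 1) T + 1 / l) := by
    refine Finset.sum_le_sum fun j hj => mul_le_mul_of_nonneg_left ?_ hh0.le
    have hj1 : ((j : ℝ) + 1) ≤ N := by
      have := Finset.mem_range.1 hj
      exact_mod_cast this
    have hj2 : 0 ≤ ((j : ℝ) + 1) * h := by positivity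
    have hj3 : ((j : ℝ) + 1) * h ≤ l := by
      rw [← hNh]
      exact mul_le_mul_of_nonneg_right hj1 hh0.le
    exact h1 b (b + ((j : ℝ) + 1) * h) hb (by linarith) (by linarith)
  have h5 : ∑ j ∈ Finset.range N, h * ((Real.pi * (T * Real.log T ^ 2) * II W)⁻¹ *
        Mq W ((b - 1 / 2) * Real.log T - 2) ((b + ((j : ℝ) + 1) * h) * Real.log T + 1) T + 1 / l) ≤
      h * (M + 2 * (1 / (2 * h))) + 1 := by
    have e : ∑ j ∈ Finset.range N, h * ((Real.pi * (T * Real.log T ^ 2) * II W)⁻¹ *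
        Mq W ((b - 1 / 2) * Real.log T - 2) ((b + ((j : ℝ) + 1) * h) * Real.log T + 1) T + 1 / l) =
        h * (∑ j ∈ Finset.range N, (Real.pi * (T * Real.log T ^ 2) * II W)⁻¹ *
        Mq W ((b - 1 / 2) * Real.log T - 2) ((b + ((j : ℝ) + 1) * h) * Real.log T + 1) T) + N * (h * (1 / l)) := by
      simp only [mul_add]
      rw [Finset.sum_add_distrib, Finset.mul_sum, Finset.sum_const, Finset.card_range, nsmul_eq_mul]
    rw [e]
    have e2 : (N : ℝ) * (h * (1 / l)) = 1 := by
      rw [← mul_assoc, hNh]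
      field_simp
    rw [e2]
    have := mul_le_mul_of_nonneg_left h2 hh0.le
    linarith
  have h6 : h * (M + 2 * (1 / (2 * h))) + 1 = A ^ 2 / 2 * (4 / 3 + η / 8) + 4 := by
    rw [hM]
    field_simp
    ring
  have h7 : ∫ α in b..(b + l), (b + l - α) * RR α T ≤ A ^ 2 / 2 * (4 / 3 + η / 8) + 4 := by
    rw [← h6]
    exact h3.trans (h4.trans h5)
  -- the numbers
  set s : ℝ := η / 16 with hs
  have hAl : A ≤ (1 + s) * l := by
    have h8 : h ≤ η / 32 * l := by
      rw [hh, div_le_iff₀ hN0]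
      have h9 : 1 ≤ η / 32 * N := by
        rw [div_le_iff₀ hη] at hN1
        linarith
      nlinarith
    have h10 : b + 1 ≤ η / 32 * l := by
      rw [div_le_iff₀ hη] at hl1
      linarith
    rw [hA, hNh, hs]
    linarith
  have hA2 : A ^ 2 ≤ (1 + 3 * s) * l ^ 2 := by
    have h8 : A ^ 2 ≤ ((1 + s) * l) ^ 2 := pow_le_pow_left₀ hA0.le hAl 2
    have h9 : ((1 + s) * l) ^ 2 ≤ (1 + 3 * s) * l ^ 2 := by
      rw [mul_pow]
      apply mul_le_mul_of_nonneg_right _ (by positivity)
      have : 0 < s := by positivity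
      have : s ≤ 1 := by rw [hs]; linarith
      nlinarith
    exact h8.trans h9
  unfold MM
  have h8 : 2 / l ^ 2 * ∫ α in b..(b + l), (b + l - α) * RR α T ≤ 2 / l ^ 2 * ((1 + 3 * s) * l ^ 2 / 2 * (4 / 3 + η / 8) + 4) := by
    apply mul_le_mul_of_nonneg_left _ (by positivity)
    refine h7.trans ?_
    gcongr
  have h9 : 2 / l ^ 2 * ((1 + 3 * s) * l ^ 2 / 2 * (4 / 3 + η / 8) + 4) = (1 + 3 * s) * (4 / 3 + η / 8) + 8 / l ^ 2 := by
    field_simp
    ring
  have h10 : 8 / l ^ 2 ≤ η / 32 := by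
    rw [div_le_iff₀ (by positivity)]
    have h11 : 16 ≤ η * l := by
      rw [div_le_iff₀ hη] at hl2
      linarith
    nlinarith
  rw [h9] at h8
  have h12 : (1 + 3 * s) * (4 / 3 + η / 8) + 8 / l ^ 2 ≤ 4 / 3 + η := by
    rw [hs]
    nlinarith
  exact h8.trans h12

/-- the lower bound with a rate, with no hypothesis -/
theorem lower_rate {b : ℝ} (hb : 1 ≤ b) :
    ∃ C : ℝ, 0 < C ∧ ∀ l : ℝ, 1 ≤ l → ∀ᶠ T : ℝ in atTop, 1 - C / l ≤ MM b l T := by
  by_cases h : RiemannHypothesis
  · exact lower_true_rate h hb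
  · obtain ⟨l0, hl0, H⟩ := lower_false h hb 0
    refine ⟨l0, hl0, fun l hl1 => ?_⟩
    have hlp : 0 < l := by linarith
    rcases le_total l0 l with h1 | h1
    · filter_upwards [H l h1] with T hT
      rw [Real.rpow_zero] at hT
      have : 0 < l0 / l := by positivity
      linarith
    · filter_upwards [eventually_ge_atTop (2 : ℝ)] with T hT2
      have h2 : 1 ≤ l0 / l := (one_le_div hlp).2 h1
      have h3 : 0 ≤ MM b l T := by
        unfold MM
        have : 0 ≤ ∫ α in b..(b + l), (b + l - α) * RR α T :=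
          intervalIntegral.integral_nonneg (by linarith) fun α hα => mul_nonneg (by linarith [hα.2]) (RR_nonneg hT2 α)
        positivity
      linarith

/-- the upper bound with a rate, under the Riemann Hypothesis -/
theorem upper_rate (hRH : RiemannHypothesis) {b : ℝ} (hb : 1 ≤ b) :
    ∃ C : ℝ, 0 < C ∧ ∀ l : ℝ, 1 ≤ l → ∀ᶠ T : ℝ in atTop, MM b l T ≤ 4 / 3 + C / l := by
  set C₀ : ℝ := 32 * (b + 1) with hC₀
  have hC₀p : 0 < C₀ := by positivity
  obtain ⟨K, hK⟩ := RR_bdd hRH (b + C₀)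
  refine ⟨max C₀ (2 * K), lt_max_of_lt_left hC₀p, fun l hl1 => ?_⟩
  have hlp : 0 < l := by linarith
  rcases le_total C₀ l with h1 | h1
  · have h2 : C₀ / l ≤ 1 := (div_le_one hlp).2 h1
    have h3 : max (32 * (b + 1) / (C₀ / l)) (16 / (C₀ / l)) ≤ l := by
      refine max_le ?_ ?_
      · rw [← hC₀]
        apply le_of_eq
        field_simp
      · rw [div_le_iff₀ (by positivity), mul_div_cancel₀ _ hlp.ne', hC₀]
        linarith
    filter_upwards [upper_true_exp hRH hb (by positivity : 0 < C₀ / l) h2 h3] with T hT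
    have h4 : C₀ / l ≤ max C₀ (2 * K) / l := div_le_div_of_nonneg_right (le_max_left _ _) hlp.le
    linarith
  · filter_upwards [hK, eventually_ge_atTop (2 : ℝ)] with T hT hT2
    have hii : ∀ x y : ℝ, x ≤ y → IntervalIntegrable (fun α => RR α T) volume x y := fun x y hxy => (star_avg hT2 hxy).1
    have h2 : ∫ α in b..(b + l), (b + l - α) * RR α T ≤ l * K := by
      calc ∫ α in b..(b + l), (b + l - α) * RR α T ≤ ∫ α in b..(b + l), l * RR α T := by
            refine intervalIntegral.integral_mono_on (by linarith) (wRR_ii hT2 _ _ _) ((hii _ _ (by linarith)).const_mul _)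
              fun α hα => ?_
            exact mul_le_mul_of_nonneg_right (by linarith [hα.1]) (RR_nonneg hT2 α)
        _ = l * ∫ α in b..(b + l), RR α T := by rw [intervalIntegral.integral_const_mul]
        _ ≤ l * ∫ α in (1 : ℝ)..(b + C₀), RR α T := by
            refine mul_le_mul_of_nonneg_left ?_ hlp.le
            exact intervalIntegral.integral_mono_interval hb (by linarith) (by linarith)
              (Eventually.of_forall fun α => RR_nonneg hT2 α) (hii _ _ (by linarith))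
        _ ≤ l * K := mul_le_mul_of_nonneg_left hT hlp.le
    have h3 : MM b l T ≤ 2 * K / l := by
      unfold MM
      calc 2 / l ^ 2 * ∫ α in b..(b + l), (b + l - α) * RR α T ≤ 2 / l ^ 2 * (l * K) :=
            mul_le_mul_of_nonneg_left h2 (by positivity)
        _ = 2 * K / l := by field_simp
    have h4 : 2 * K / l ≤ max C₀ (2 * K) / l := div_le_div_of_nonneg_right (le_max_right _ _) hlp.le
    linarith

end Pool.Agent.Lib.MP_2a816b_nt.LM
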