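import Mathlib

/-!
# Localisation of a large moment

If `|f v| ≤ C e^v` and the moment `∫ |f| v^n / n! e^(-σ v)` is at least `c d^(-n)`, then `|f| e^(-(σ - d) v)` has mass at least `c / 2` on `[a n, b n]`.
-/

open Set Filter Topology MeasureTheory

namespace Pool.Agent.Lib.MP_2a816b_nt.LM

theorem pow_div_fact_le {v l : ℝ} (hv : 0 ≤ v) (hl : 0 < l) (n : ℕ) :
    v ^ n / (n.factorial : ℝ) ≤ l⁻¹ ^ n * Real.exp (l * v) := by
  have h1 := Real.pow_div_factorial_le_exp (l * v) (by positivity) n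
  have h2 : v ^ n / (n.factorial : ℝ) = l⁻¹ ^ n * ((l * v) ^ n / (n.factorial : ℝ)) := by
    rw [mul_pow, inv_pow]
    field_simp
  rw [h2]
  exact mul_le_mul_of_nonneg_left h1 (by positivity)

theorem integrable_exp_neg {l : ℝ} (hl : 0 < l) (a : ℝ) : IntegrableOn (fun v : ℝ => Real.exp (-(l * v))) (Ioi a) := by
  have := exp_neg_integrableOn_Ioi a hl
  simpa [neg_mul] using this

theorem integral_exp_neg {l : ℝ} (hl : 0 < l) (a : ℝ) : ∫ v in Ioi a, Real.exp (-(l * v)) = Real.exp (-(l * a)) / l := by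
  have h := integral_exp_mul_Ioi (a := -l) (by linarith) a
  have e : ∀ v : ℝ, Real.exp (-(l * v)) = Real.exp (-l * v) := fun v => by ring_nf
  simp only [e]
  rw [h]
  rw [show -l * a = -(l * a) by ring, neg_div_neg_eq]

theorem moment_int {f : ℝ → ℝ} (hf : Measurable f) {C σ : ℝ} (_hC : 0 ≤ C) (hσ : 1 < σ)
    (hfb : ∀ v : ℝ, 0 < v → |f v| ≤ C * Real.exp v) (n : ℕ) :
    IntegrableOn (fun v => |f v| * (v ^ n / (n.factorial : ℝ)) * Real.exp (-(σ * v))) (Ioi 0) := by
  have hl : 0 < (σ - 1) / 2 := by linarith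
  have h1 : IntegrableOn (fun v : ℝ => C * ((σ - 1) / 2)⁻¹ ^ n * Real.exp (-((σ - 1) / 2 * v))) (Ioi 0) :=
    (integrable_exp_neg hl 0).const_mul _
  refine Integrable.mono' h1 ?_ ?_
  · have : Measurable (fun v => |f v| * (v ^ n / (n.factorial : ℝ)) * Real.exp (-(σ * v))) := by
      have := hf.abs
      fun_prop
    exact this.aestronglyMeasurable
  · filter_upwards [ae_restrict_mem measurableSet_Ioi] with v hv
    have hv0 : 0 ≤ v := (le_of_lt hv)
    rw [Real.norm_eq_abs, abs_of_nonneg (by positivity)]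
    have h2 := pow_div_fact_le hv0 hl n
    have h3 := hfb v hv
    calc |f v| * (v ^ n / (n.factorial : ℝ)) * Real.exp (-(σ * v))
        ≤ (C * Real.exp v) * (((σ - 1) / 2)⁻¹ ^ n * Real.exp ((σ - 1) / 2 * v)) * Real.exp (-(σ * v)) := by
          gcongr
      _ = C * ((σ - 1) / 2)⁻¹ ^ n * Real.exp (-((σ - 1) / 2 * v)) := by
          have : Real.exp (-((σ - 1) / 2 * v)) = Real.exp v * Real.exp ((σ - 1) / 2 * v) * Real.exp (-(σ * v)) := by
            rw [← Real.exp_add, ← Real.exp_add]
            congr 1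
            ring
          rw [this]
          ring

/-- the localisation -/
theorem localise {C σ d c : ℝ} (hC : 0 ≤ C) (hσ : 1 < σ) (hd : 0 < d) (hc : 0 < c) :
    ∃ a b : ℝ, 0 < a ∧ a < b ∧ ∃ n0 : ℕ, ∀ n : ℕ, n0 ≤ n → ∀ f : ℝ → ℝ, Measurable f →
      (∀ v : ℝ, 0 < v → |f v| ≤ C * Real.exp v) →
      c * d⁻¹ ^ n ≤ ∫ v in Ioi (0 : ℝ), |f v| * (v ^ n / (n.factorial : ℝ)) * Real.exp (-(σ * v)) →
      c / 2 ≤ ∫ v in (a * n)..(b * n), |f v| * Real.exp (-((σ - d) * v)) := by
  set l : ℝ := (σ - 1) / 2 with hl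
  have hl0 : 0 < l := by rw [hl]; linarith
  -- the constant `a`
  set a : ℝ := 1 / (2 * Real.exp 1 * d) with ha
  have ha0 : 0 < a := by positivity
  -- the constant `b`
  obtain ⟨b, hba, hb⟩ : ∃ b : ℝ, a < b ∧ l⁻¹ * Real.exp (-(l * b)) ≤ 1 / (2 * d) := by
    have h1 : Tendsto (fun b : ℝ => l⁻¹ * Real.exp (-(l * b))) atTop (𝓝 (l⁻¹ * 0)) := by
      apply Tendsto.const_mul
      apply Real.tendsto_exp_neg_atTop_nhds_zero.comp
      exact tendsto_id.const_mul_atTop hl0
    rw [mul_zero] at h1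
    have h2 := (h1.eventually_le_const (show (0 : ℝ) < 1 / (2 * d) by positivity)).and (eventually_gt_atTop a)
    obtain ⟨b, h3, h4⟩ := h2.exists
    exact ⟨b, h4, h3⟩
  -- the threshold
  obtain ⟨n0, hn0⟩ : ∃ n0 : ℕ, ∀ n : ℕ, n0 ≤ n → (C / (σ - 1) + C / l) * (1 / 2 : ℝ) ^ n ≤ c / 2 := by
    have h1 : Tendsto (fun n : ℕ => (C / (σ - 1) + C / l) * (1 / 2 : ℝ) ^ n) atTop (𝓝 ((C / (σ - 1) + C / l) * 0)) :=
      (tendsto_pow_atTop_nhds_zero_of_lt_one (by norm_num) (by norm_num)).const_mul _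
    rw [mul_zero] at h1
    exact eventually_atTop.1 (h1.eventually_le_const (show (0 : ℝ) < c / 2 by positivity))
  refine ⟨a, b, ha0, hba, n0, fun n hn f hf hfb hlow => ?_⟩
  have hn1 := hn0 n hn
  have han : 0 ≤ a * n := by positivity
  have habn : a * n ≤ b * n := mul_le_mul_of_nonneg_right hba.le (Nat.cast_nonneg n)
  set F : ℝ → ℝ := fun v => |f v| * (v ^ n / (n.factorial : ℝ)) * Real.exp (-(σ * v)) with hF
  have hFi : IntegrableOn F (Ioi 0) := moment_int hf hC hσ hfb n
  have hFii : ∀ x y : ℝ, 0 ≤ x → x ≤ y → IntervalIntegrable F volume x y := by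
    intro x y hx hxy
    rw [intervalIntegrable_iff_integrableOn_Ioc_of_le hxy]
    exact hFi.mono_set fun z hz => lt_of_le_of_lt hx hz.1
  have hsplit : ∫ v in Ioi (0 : ℝ), F v = (∫ v in (0 : ℝ)..(a * n), F v) + (∫ v in (a * n)..(b * n), F v) +
      ∫ v in Ioi (b * n), F v := by
    rw [intervalIntegral.integral_add_adjacent_intervals (hFii _ _ le_rfl han) (hFii _ _ han habn)]
    rw [intervalIntegral.integral_interval_add_Ioi hFi]
    exact hFi.mono_set (Ioi_subset_Ioi (han.trans habn))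
  -- left part
  have hleft : ∫ v in (0 : ℝ)..(a * n), F v ≤ C / (σ - 1) * (1 / 2 : ℝ) ^ n * d⁻¹ ^ n := by
    have hae : (a * n) ^ n / (n.factorial : ℝ) ≤ (1 / 2 : ℝ) ^ n * d⁻¹ ^ n := by
      have h1 := Real.pow_div_factorial_le_exp (n : ℝ) (Nat.cast_nonneg n) n
      have h2 : (a * n) ^ n / (n.factorial : ℝ) = a ^ n * ((n : ℝ) ^ n / (n.factorial : ℝ)) := by
        rw [mul_pow]; ring
      rw [h2]
      have h3 : Real.exp (n : ℝ) = Real.exp 1 ^ n := by
        rw [← Real.exp_nat_mul, mul_one]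
      rw [h3] at h1
      calc a ^ n * ((n : ℝ) ^ n / (n.factorial : ℝ)) ≤ a ^ n * Real.exp 1 ^ n := by gcongr
        _ = (1 / 2 : ℝ) ^ n * d⁻¹ ^ n := by
            rw [← mul_pow, ← mul_pow]
            congr 1
            rw [ha]
            field_simp
    have h1 : ∫ v in (0 : ℝ)..(a * n), F v ≤ ∫ v in (0 : ℝ)..(a * n),
        C * ((a * n) ^ n / (n.factorial : ℝ)) * Real.exp (-((σ - 1) * v)) := by
      refine intervalIntegral.integral_mono_on_of_le_Ioo han (hFii _ _ le_rfl han)
        (Continuous.intervalIntegrable (by fun_prop) _ _) fun v hv => ?_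
      have hv0 := hv.1
      have h3 := hfb v hv0
      have h4 : v ^ n / (n.factorial : ℝ) ≤ (a * n) ^ n / (n.factorial : ℝ) := by
        have := hv.2.le
        gcongr
      calc F v ≤ (C * Real.exp v) * ((a * n) ^ n / (n.factorial : ℝ)) * Real.exp (-(σ * v)) := by
            simp only [hF]
            gcongr
        _ = C * ((a * n) ^ n / (n.factorial : ℝ)) * Real.exp (-((σ - 1) * v)) := by
            have : Real.exp (-((σ - 1) * v)) = Real.exp v * Real.exp (-(σ * v)) := by
              rw [← Real.exp_add]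
              congr 1
              ring
            rw [this]
            ring
    rw [intervalIntegral.integral_const_mul] at h1
    have h5 : ∫ v in (0 : ℝ)..(a * n), Real.exp (-((σ - 1) * v)) ≤ 1 / (σ - 1) := by
      have hs : 0 < σ - 1 := by linarith
      rw [intervalIntegral.integral_of_le han]
      calc ∫ v in Ioc 0 (a * n), Real.exp (-((σ - 1) * v)) ≤ ∫ v in Ioi (0 : ℝ), Real.exp (-((σ - 1) * v)) := by
            apply setIntegral_mono_set (integrable_exp_neg hs 0)
            · exact Eventually.of_forall fun v => (Real.exp_pos _).le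
            · exact (Ioc_subset_Ioi_self).eventuallyLE
        _ = 1 / (σ - 1) := by
            rw [integral_exp_neg hs 0]
            simp
    calc ∫ v in (0 : ℝ)..(a * n), F v ≤ C * ((a * n) ^ n / (n.factorial : ℝ)) * (1 / (σ - 1)) :=
          h1.trans (mul_le_mul_of_nonneg_left h5 (by positivity))
      _ ≤ C * ((1 / 2 : ℝ) ^ n * d⁻¹ ^ n) * (1 / (σ - 1)) := by
          have hs : 0 < σ - 1 := by linarith
          gcongr
      _ = _ := by ring
  -- right part
  have hright : ∫ v in Ioi (b * n), F v ≤ C / l * (1 / 2 : ℝ) ^ n * d⁻¹ ^ n := by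
    have h1 : ∫ v in Ioi (b * n), F v ≤ ∫ v in Ioi (b * n), C * l⁻¹ ^ n * Real.exp (-(l * v)) := by
      refine setIntegral_mono_on (hFi.mono_set (Ioi_subset_Ioi (han.trans habn)))
        ((integrable_exp_neg hl0 _).const_mul _) measurableSet_Ioi fun v hv => ?_
      have hv0 : 0 < v := lt_of_le_of_lt (han.trans habn) hv
      have h3 := hfb v hv0
      have h4 := pow_div_fact_le hv0.le hl0 n
      calc F v ≤ (C * Real.exp v) * (l⁻¹ ^ n * Real.exp (l * v)) * Real.exp (-(σ * v)) := by
            simp only [hF]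
            gcongr
        _ = C * l⁻¹ ^ n * Real.exp (-(l * v)) := by
            have : Real.exp (-(l * v)) = Real.exp v * Real.exp (l * v) * Real.exp (-(σ * v)) := by
              rw [← Real.exp_add, ← Real.exp_add]
              congr 1
              rw [hl]
              ring
            rw [this]
            ring
    rw [integral_const_mul, integral_exp_neg hl0] at h1
    have h2 : l⁻¹ ^ n * Real.exp (-(l * (b * n))) ≤ (1 / 2 : ℝ) ^ n * d⁻¹ ^ n := by
      have h3 : Real.exp (-(l * (b * n))) = Real.exp (-(l * b)) ^ n := by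
        rw [← Real.exp_nat_mul]
        congr 1
        ring
      rw [h3, ← mul_pow, ← mul_pow]
      apply pow_le_pow_left₀ (by positivity)
      refine hb.trans (le_of_eq ?_)
      field_simp
    calc ∫ v in Ioi (b * n), F v ≤ C * l⁻¹ ^ n * (Real.exp (-(l * (b * n))) / l) := h1
      _ = C / l * (l⁻¹ ^ n * Real.exp (-(l * (b * n)))) := by ring
      _ ≤ C / l * ((1 / 2 : ℝ) ^ n * d⁻¹ ^ n) := by gcongr
      _ = _ := by ring
  -- middle part
  have hmid : ∫ v in (a * n)..(b * n), F v ≤ d⁻¹ ^ n * ∫ v in (a * n)..(b * n), |f v| * Real.exp (-((σ - d) * v)) := by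
    rw [← intervalIntegral.integral_const_mul]
    have hgi : IntervalIntegrable (fun v => d⁻¹ ^ n * (|f v| * Real.exp (-((σ - d) * v)))) volume (a * n) (b * n) := by
      rw [intervalIntegrable_iff_integrableOn_Ioc_of_le habn]
      refine Measure.integrableOn_of_bounded
        (M := d⁻¹ ^ n * ((C * Real.exp (b * n)) * Real.exp (|σ - d| * (b * n)))) (by simp) ?_ ?_
      · have : Measurable (fun v => d⁻¹ ^ n * (|f v| * Real.exp (-((σ - d) * v)))) := by
          have := hf.abs
          fun_prop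
        exact this.aestronglyMeasurable
      · rw [ae_restrict_iff' measurableSet_Ioc]
        refine Eventually.of_forall fun v hv => ?_
        have hv0 : 0 < v := lt_of_le_of_lt han hv.1
        rw [Real.norm_eq_abs, abs_of_nonneg (by positivity)]
        have h1 : |f v| ≤ C * Real.exp (b * n) :=
          (hfb v hv0).trans (mul_le_mul_of_nonneg_left (Real.exp_le_exp.2 hv.2) hC)
        have h2 : Real.exp (-((σ - d) * v)) ≤ Real.exp (|σ - d| * (b * n)) := by
          apply Real.exp_le_exp.2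
          calc -((σ - d) * v) = (-(σ - d)) * v := by ring
            _ ≤ |σ - d| * v := mul_le_mul_of_nonneg_right (neg_le_abs _) hv0.le
            _ ≤ |σ - d| * (b * n) := mul_le_mul_of_nonneg_left hv.2 (abs_nonneg _)
        gcongr
    refine intervalIntegral.integral_mono_on habn (hFii _ _ han habn) hgi fun v hv => ?_
    have hv0 : 0 ≤ v := han.trans hv.1
    have h4 := pow_div_fact_le hv0 hd n
    calc F v ≤ |f v| * (d⁻¹ ^ n * Real.exp (d * v)) * Real.exp (-(σ * v)) := by
          simp only [hF]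
          gcongr
      _ = d⁻¹ ^ n * (|f v| * Real.exp (-((σ - d) * v))) := by
          have : Real.exp (-((σ - d) * v)) = Real.exp (d * v) * Real.exp (-(σ * v)) := by
            rw [← Real.exp_add]
            congr 1
            ring
          rw [this]
          ring
  have hdn : 0 < d⁻¹ ^ n := by positivity
  rw [hsplit] at hlow
  have hsum : (C / (σ - 1) * (1 / 2 : ℝ) ^ n * d⁻¹ ^ n) + (C / l * (1 / 2 : ℝ) ^ n * d⁻¹ ^ n) ≤ c / 2 * d⁻¹ ^ n := by
    have := mul_le_mul_of_nonneg_right hn1 hdn.le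
    nlinarith
  have hfin : c / 2 * d⁻¹ ^ n ≤ d⁻¹ ^ n * ∫ v in (a * n)..(b * n), |f v| * Real.exp (-((σ - d) * v)) := by
    linarith
  rw [mul_comm] at hfin
  exact le_of_mul_le_mul_left hfin hdn

end Pool.Agent.Lib.MP_2a816b_nt.LM
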