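import Pool.Agent.Lib.MP_2a816b_nt.LM.Real

/-!
# Taylor coefficients of a Laplace transform with one simple pole on the circle of convergence
-/

open Set Filter Topology MeasureTheory Complex

namespace Pool.Agent.Lib.MP_2a816b_nt.LM

theorem coeff_unique {a b : ℕ → ℂ} {δ : ℝ} (hδ : 0 < δ) {g : ℂ → ℂ}
    (ha : ∀ z : ℂ, ‖z‖ < δ → HasSum (fun n => a n * z ^ n) (g z))
    (hb : ∀ z : ℂ, ‖z‖ < δ → HasSum (fun n => b n * z ^ n) (g z)) : a = b := by
  have key : ∀ u : ℕ → ℂ, (∀ z : ℂ, ‖z‖ < δ → HasSum (fun n => u n * z ^ n) (g z)) →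
      HasFPowerSeriesAt g (FormalMultilinearSeries.ofScalars ℂ u) 0 := by
    intro u hu
    rw [hasFPowerSeriesAt_iff]
    filter_upwards [Metric.ball_mem_nhds (0 : ℂ) hδ] with z hz
    have hz' : ‖z‖ < δ := by simpa using hz
    have h := hu z hz'
    rw [zero_add]
    simpa only [FormalMultilinearSeries.coeff_ofScalars, smul_eq_mul, mul_comm] using h
  have h1 := (key a ha).eq_formalMultilinearSeries (key b hb)
  funext n
  have h2 := congrArg (fun p => FormalMultilinearSeries.coeff p n) h1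
  simpa [FormalMultilinearSeries.coeff_ofScalars] using h2

/-- Taylor coefficients of the Laplace transform -/
theorem laplace_taylor {f : ℝ → ℝ} (hf : Measurable f) {C : ℝ} (hC : 0 ≤ C)
    (hfb : ∀ v : ℝ, 0 < v → |f v| ≤ C * Real.exp v) {c z : ℂ} (hc : 1 < c.re) (hz : ‖z‖ < c.re - 1) :
    HasSum (fun n : ℕ => ((-1 : ℂ) ^ n * ∫ v in Ioi (0 : ℝ), (f v : ℂ) * ((v : ℂ) ^ n / (n.factorial : ℂ)) * cexp (-(c * v))) * z ^ n)
      (∫ v in Ioi (0 : ℝ), (f v : ℂ) * cexp (-((c + z) * v))) := by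
  set l : ℝ := (‖z‖ + (c.re - 1)) / 2 with hl
  have hzl : ‖z‖ < l := by rw [hl]; linarith
  have hl1 : l < c.re - 1 := by rw [hl]; linarith
  have hl0 : 0 < l := lt_of_le_of_lt (norm_nonneg z) hzl
  set F : ℕ → ℝ → ℂ := fun n v => (f v : ℂ) * ((-z * v) ^ n / (n.factorial : ℂ)) * cexp (-(c * v)) with hF
  have hnorm : ∀ n v, 0 < v → ‖F n v‖ ≤ C * (‖z‖ / l) ^ n * Real.exp (-((c.re - 1 - l) * v)) := by
    intro n v hv
    have h1 : ‖F n v‖ = |f v| * (‖z‖ ^ n * (v ^ n / (n.factorial : ℝ))) * Real.exp (-(c.re * v)) := by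
      simp only [hF]
      rw [norm_mul, norm_mul, Complex.norm_real, Real.norm_eq_abs, norm_div, norm_pow, norm_mul, norm_neg,
        Complex.norm_real, Real.norm_eq_abs, abs_of_pos hv, Complex.norm_natCast, Complex.norm_exp]
      have : (-(c * (v : ℂ))).re = -(c.re * v) := by simp
      rw [this, mul_pow]
      ring
    rw [h1]
    have h2 := pow_div_fact_le hv.le hl0 n
    have h3 := hfb v hv
    calc |f v| * (‖z‖ ^ n * (v ^ n / (n.factorial : ℝ))) * Real.exp (-(c.re * v))
        ≤ (C * Real.exp v) * (‖z‖ ^ n * (l⁻¹ ^ n * Real.exp (l * v))) * Real.exp (-(c.re * v)) := by gcongr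
      _ = _ := by
          have : Real.exp (-((c.re - 1 - l) * v)) = Real.exp v * Real.exp (l * v) * Real.exp (-(c.re * v)) := by
            rw [← Real.exp_add, ← Real.exp_add]
            congr 1
            ring
          rw [this, div_eq_mul_inv, mul_pow]
          ring
  have hgi : ∀ n : ℕ, IntegrableOn (fun v : ℝ => C * (‖z‖ / l) ^ n * Real.exp (-((c.re - 1 - l) * v))) (Ioi 0) :=
    fun n => (integrable_exp_neg (by linarith) 0).const_mul _
  have hmeas : ∀ n, Measurable (F n) := by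
    intro n
    have h1 : Measurable (fun v : ℝ => (f v : ℂ)) := Complex.measurable_ofReal.comp hf
    have h2 : Continuous (fun v : ℝ => (-z * (v : ℂ)) ^ n / (n.factorial : ℂ)) := by fun_prop
    have h3 : Continuous (fun v : ℝ => cexp (-(c * (v : ℂ)))) := by fun_prop
    exact (h1.mul h2.measurable).mul h3.measurable
  have hFi : ∀ n, Integrable (F n) (volume.restrict (Ioi 0)) := by
    intro n
    refine Integrable.mono' (hgi n) (hmeas n).aestronglyMeasurable ?_
    filter_upwards [ae_restrict_mem measurableSet_Ioi] with v hv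
    exact hnorm n v hv
  have hFs : Summable fun n => ∫ v in Ioi (0 : ℝ), ‖F n v‖ := by
    have hq : ‖z‖ / l < 1 := (div_lt_one hl0).2 hzl
    have hq0 : 0 ≤ ‖z‖ / l := by positivity
    refine Summable.of_nonneg_of_le (fun n => integral_nonneg fun v => norm_nonneg _) (fun n => ?_)
      ((summable_geometric_of_lt_one hq0 hq).mul_left (C * (Real.exp (-((c.re - 1 - l) * 0)) / (c.re - 1 - l))))
    calc ∫ v in Ioi (0 : ℝ), ‖F n v‖ ≤ ∫ v in Ioi (0 : ℝ), C * (‖z‖ / l) ^ n * Real.exp (-((c.re - 1 - l) * v)) :=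
          setIntegral_mono_on (hFi n).norm (hgi n) measurableSet_Ioi fun v hv => hnorm n v hv
      _ = _ := by
          rw [integral_const_mul, integral_exp_neg (by linarith)]
          ring
  have key := hasSum_integral_of_summable_integral_norm hFi hFs
  have e1 : ∀ n : ℕ, ∫ v in Ioi (0 : ℝ), F n v =
      ((-1 : ℂ) ^ n * ∫ v in Ioi (0 : ℝ), (f v : ℂ) * ((v : ℂ) ^ n / (n.factorial : ℂ)) * cexp (-(c * v))) * z ^ n := by
    intro n
    rw [mul_comm _ (z ^ n), ← mul_assoc, ← integral_const_mul]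
    congr 1
    funext v
    simp only [hF]
    rw [show -z * (v : ℂ) = (-1) * (z * v) by ring, mul_pow, mul_pow]
    ring
  have e2 : ∫ v in Ioi (0 : ℝ), ∑' n, F n v = ∫ v in Ioi (0 : ℝ), (f v : ℂ) * cexp (-((c + z) * v)) := by
    congr 1
    funext v
    have h1 : HasSum (fun n : ℕ => (-z * (v : ℂ)) ^ n / (n.factorial : ℂ)) (cexp (-z * v)) := by
      rw [Complex.exp_eq_exp_ℂ]
      exact NormedSpace.expSeries_div_hasSum_exp (-z * (v : ℂ))
    have h2 := ((h1.mul_left (f v : ℂ)).mul_right (cexp (-(c * v)))).tsum_eq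
    simp only [hF]
    rw [h2, mul_assoc, ← Complex.exp_add]
    congr 2
    ring
  rw [← e2]
  simpa only [e1] using key

end Pool.Agent.Lib.MP_2a816b_nt.LM
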