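import Pool.Agent.Lib.MP_2a816b_nt.PV.Fwd

/-!
# From `F(α, T)` to the variance: sums of long means
-/

open Complex Set Filter Topology MeasureTheory

namespace Pool.Agent.Lib.MP_2a816b_nt.LM

open Pool.Agent.Lib.MP_00e05b_nt Pool.Agent.Lib.MP_00e05b_nt.Mont Pool.Agent.Lib.MP_2a816b_nt.PV

theorem log_ratio {w : ℝ} (hw : 0 < w) :
    Tendsto (fun T : ℝ => Real.log (w * T) / Real.log T) atTop (𝓝 1) := by
  have h1 : Tendsto (fun T : ℝ => Real.log w / Real.log T + 1) atTop (𝓝 (0 + 1)) :=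
    (Tendsto.div_atTop tendsto_const_nhds Real.tendsto_log_atTop).add_const 1
  rw [zero_add] at h1
  refine h1.congr' ?_
  filter_upwards [eventually_gt_atTop (1 : ℝ)] with T hT
  have hL : 0 < Real.log T := Real.log_pos hT
  rw [Real.log_mul hw.ne' (by linarith)]
  field_simp

theorem lin_ratio {w : ℝ} (hw : 0 < w) (x q : ℝ) :
    Tendsto (fun T : ℝ => (x * Real.log T + q) / Real.log (w * T)) atTop (𝓝 x) := by
  have h0 := log_ratio hw
  have h1 : Tendsto (fun T : ℝ => x + q / Real.log T) atTop (𝓝 (x + 0)) :=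
    tendsto_const_nhds.add (Tendsto.div_atTop tendsto_const_nhds Real.tendsto_log_atTop)
  have h2 := h1.div h0 one_ne_zero
  rw [add_zero, div_one] at h2
  refine h2.congr' ?_
  have h3 : ∀ᶠ T : ℝ in atTop, 1 < w * T := by
    have := (tendsto_id (α := ℝ) (x := atTop)).const_mul_atTop hw
    exact this.eventually_gt_atTop 1
  filter_upwards [eventually_gt_atTop (1 : ℝ), h3] with T hT hT3
  have hL : 0 < Real.log T := Real.log_pos hT
  have hL2 : 0 < Real.log (w * T) := Real.log_pos hT3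
  simp only [Pi.div_apply]
  field_simp

theorem err_small {w : ℝ} (hw : 0 < w) (x y C I : ℝ) (hI : 0 < I) :
    Tendsto (fun T : ℝ => (T * Real.log T ^ 2 * I)⁻¹ *
      (C * ((y * Real.log T + 1) - (x * Real.log T - 2)) * Real.log (w * T) ^ 3)) atTop (𝓝 0) := by
  have h0 := log_ratio hw
  have h1 : Tendsto (fun T : ℝ => (y - x) + 3 / Real.log T) atTop (𝓝 ((y - x) + 0)) :=
    tendsto_const_nhds.add (Tendsto.div_atTop tendsto_const_nhds Real.tendsto_log_atTop)
  have h2 : Tendsto (fun T : ℝ => Real.log T ^ 2 / T) atTop (𝓝 0) := by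
    have := (Real.isLittleO_pow_log_id_atTop (n := 2)).tendsto_div_nhds_zero
    simpa using this
  have h3 := ((h1.mul (h0.pow 3)).mul h2).const_mul (C * I⁻¹)
  rw [mul_zero, mul_zero] at h3
  refine h3.congr' ?_
  filter_upwards [eventually_gt_atTop (1 : ℝ)] with T hT
  have hL : 0 < Real.log T := Real.log_pos hT
  have hT0 : 0 < T := by linarith
  field_simp
  ring

/-- the upper bound for `AC` by `FF`, without any limit for `FF` -/
theorem AC_FF (hRH : RiemannHypothesis) {W : ℝ → ℝ} (hW : EB W (1 / 8))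
    {x y k ε w : ℝ} (hk : 0 < k) (hxy : x < y) (hε : 0 < ε) (hw : 0 < w) :
    ∀ᶠ T : ℝ in atTop, (T * Real.log T ^ 2 * II W)⁻¹ *
      AC W (x * Real.log T - 2) (y * Real.log T + 1) (w * T) ≤
        w * ((1 + ε) * ∫ α in (x - k)..(y + k), FF α (w * T)) + ε := by
  have hII : 0 < II W := II_pos hW (by norm_num)
  obtain ⟨C, hC, hQ⟩ := AC_QS hRH hW
  obtain ⟨m, hm0, hm⟩ : ∃ m : ℝ, 0 < m ∧ (1 - Real.exp (-(2 * m)))⁻¹ < 1 + ε := by
    have h1 : Tendsto (fun m : ℝ => Real.exp (-(2 * m))) atTop (𝓝 0) :=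
      Real.tendsto_exp_neg_atTop_nhds_zero.comp (tendsto_id.const_mul_atTop (by norm_num : (0 : ℝ) < 2))
    have h2 : Tendsto (fun m : ℝ => (1 - Real.exp (-(2 * m)))⁻¹) atTop (𝓝 ((1 - 0)⁻¹)) :=
      ((tendsto_const_nhds.sub h1).inv₀ (by norm_num))
    have h3 : ((1 : ℝ) - 0)⁻¹ < 1 + ε := by
      rw [sub_zero, inv_one]; linarith
    obtain ⟨m, hm1, hm2⟩ := ((h2.eventually_lt_const h3).and (eventually_gt_atTop (0 : ℝ))).exists
    exact ⟨m, hm2, hm1⟩
  have hE1 : Real.exp (-(2 * m)) < 1 := by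
    rw [← Real.exp_zero]
    exact Real.exp_lt_exp.2 (by linarith)
  have hE : 0 < 1 - Real.exp (-(2 * m)) := by linarith
  have hwT : Tendsto (fun T : ℝ => w * T) atTop atTop := tendsto_id.const_mul_atTop hw
  have hlim : Tendsto (fun T : ℝ => (1 - Real.exp (-(2 * m)))⁻¹ * (Real.log (w * T) / Real.log T) ^ 2) atTop
      (𝓝 ((1 - Real.exp (-(2 * m)))⁻¹ * 1 ^ 2)) := ((log_ratio hw).pow 2).const_mul _
  have hfin : (1 - Real.exp (-(2 * m)))⁻¹ * 1 ^ 2 < 1 + ε := by
    rw [one_pow, mul_one]; exact hm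
  have hlo : ∀ᶠ T : ℝ in atTop, x - k < (x * Real.log T + (-2 - 1 / 8 - m)) / Real.log (w * T) :=
    (lin_ratio hw x _).eventually_const_lt (by linarith)
  have hhi : ∀ᶠ T : ℝ in atTop, (y * Real.log T + (1 + 1 / 8 + m)) / Real.log (w * T) < y + k :=
    (lin_ratio hw y _).eventually_lt_const (by linarith)
  filter_upwards [hlim.eventually_lt_const hfin, hlo, hhi, eventually_gt_atTop (1 : ℝ), hwT.eventually_ge_atTop 2,
    (err_small hw x y C (II W) hII).eventually_lt_const hε] with T h1 h2 h3 hT hT2 herr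
  have hT0 : 0 < T := by linarith
  have hL : 0 < Real.log T := Real.log_pos hT
  have hl : 0 < Real.log (w * T) := Real.log_pos (by linarith)
  have hc : x * Real.log T - 2 ≤ y * Real.log T + 1 := by nlinarith
  have hq := (hQ (w * T) hT2 (x * Real.log T - 2) (y * Real.log T + 1) hc).2
  have hqs := QS_le (t := w * T) (by linarith) (c1 := x * Real.log T - 2 - 1 / 8) (c2 := y * Real.log T + 1 + 1 / 8)
    (m := m) (by linarith) hm0.le
  have hFF : (∫ α in ((x * Real.log T - 2 - 1 / 8 - m) / Real.log (w * T))..((y * Real.log T + 1 + 1 / 8 + m) /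
      Real.log (w * T)), FF α (w * T)) ≤ ∫ α in (x - k)..(y + k), FF α (w * T) := by
    have e1 : (x * Real.log T - 2 - 1 / 8 - m) / Real.log (w * T) =
        (x * Real.log T + (-2 - 1 / 8 - m)) / Real.log (w * T) := by ring
    have e2 : (y * Real.log T + 1 + 1 / 8 + m) / Real.log (w * T) =
        (y * Real.log T + (1 + 1 / 8 + m)) / Real.log (w * T) := by ring
    rw [e1, e2]
    apply intervalIntegral.integral_mono_interval h2.le _ h3.le
    · exact Filter.Eventually.of_forall fun α => FF_nonneg (by linarith) α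
    · exact (FF_continuous (by linarith)).intervalIntegrable _ _
    · apply div_le_div_of_nonneg_right _ hl.le
      nlinarith
  have hN : N0 (w * T) = w * T / (2 * Real.pi) * Real.log (w * T) := rfl
  have hpi := Real.pi_pos
  have hN0 : 0 ≤ N0 (w * T) * Real.log (w * T) := (mul_pos (N0_pos (by linarith)) hl).le
  have hqs2 : QS (w * T) (x * Real.log T - 2 - 1 / 8) (y * Real.log T + 1 + 1 / 8) ≤
      (1 - Real.exp (-(2 * m)))⁻¹ * (N0 (w * T) * Real.log (w * T) * ∫ α in (x - k)..(y + k), FF α (w * T)) := by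
    have h5 : (1 - Real.exp (-(2 * m))) * QS (w * T) (x * Real.log T - 2 - 1 / 8) (y * Real.log T + 1 + 1 / 8) ≤
        N0 (w * T) * Real.log (w * T) * ∫ α in (x - k)..(y + k), FF α (w * T) :=
      hqs.trans (mul_le_mul_of_nonneg_left hFF hN0)
    rw [inv_mul_eq_div, le_div_iff₀ hE]
    linarith
  have hpos : 0 < (T * Real.log T ^ 2 * II W)⁻¹ := by positivity
  have h6 : AC W (x * Real.log T - 2) (y * Real.log T + 1) (w * T) ≤
      2 * Real.pi * II W * ((1 - Real.exp (-(2 * m)))⁻¹ * (N0 (w * T) * Real.log (w * T) *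
        ∫ α in (x - k)..(y + k), FF α (w * T))) +
      C * ((y * Real.log T + 1) - (x * Real.log T - 2)) * Real.log (w * T) ^ 3 := by
    have h7 : 2 * Real.pi * II W * QS (w * T) (x * Real.log T - 2 - 1 / 8) (y * Real.log T + 1 + 1 / 8) ≤
        2 * Real.pi * II W * ((1 - Real.exp (-(2 * m)))⁻¹ * (N0 (w * T) * Real.log (w * T) *
        ∫ α in (x - k)..(y + k), FF α (w * T))) :=
      mul_le_mul_of_nonneg_left hqs2 (by positivity)
    linarith
  have hJ : 0 ≤ ∫ α in (x - k)..(y + k), FF α (w * T) :=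
    intervalIntegral.integral_nonneg (by linarith) fun α _ => FF_nonneg (by linarith) α
  have h8 : (T * Real.log T ^ 2 * II W)⁻¹ * AC W (x * Real.log T - 2) (y * Real.log T + 1) (w * T) ≤
      ((1 - Real.exp (-(2 * m)))⁻¹ * (Real.log (w * T) / Real.log T) ^ 2) * (w * ∫ α in (x - k)..(y + k), FF α (w * T)) +
      (T * Real.log T ^ 2 * II W)⁻¹ *
      (C * ((y * Real.log T + 1) - (x * Real.log T - 2)) * Real.log (w * T) ^ 3) := by
    refine (mul_le_mul_of_nonneg_left h6 hpos.le).trans (le_of_eq ?_)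
    rw [hN]
    field_simp
  have h9 : ((1 - Real.exp (-(2 * m)))⁻¹ * (Real.log (w * T) / Real.log T) ^ 2) * (w * ∫ α in (x - k)..(y + k), FF α (w * T)) ≤
      (1 + ε) * (w * ∫ α in (x - k)..(y + k), FF α (w * T)) :=
    mul_le_mul_of_nonneg_right h1.le (mul_nonneg hw.le hJ)
  have h10 : w * ((1 + ε) * ∫ α in (x - k)..(y + k), FF α (w * T)) =
      (1 + ε) * (w * ∫ α in (x - k)..(y + k), FF α (w * T)) := by ring
  rw [h10]
  linarith

theorem AC_dom' (hRH : RiemannHypothesis) {W : ℝ → ℝ} (hW : EB W (1 / 8)) {x y : ℝ} (hxy : x < y) :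
    ∃ C : ℝ, 0 ≤ C ∧ ∀ᶠ T : ℝ in atTop, ∀ w : ℝ, 0 < w →
      (T * Real.log T ^ 2 * II W)⁻¹ * AC W (x * Real.log T - 2) (y * Real.log T + 1) (w * T) ≤
        C * (√w + w * √w) := by
  have hII : 0 < II W := II_pos hW (by norm_num)
  obtain ⟨C, hC, hdom⟩ := AC_dom hRH hW (B := y - x + 3) (by linarith)
  refine ⟨C / II W, by positivity, ?_⟩
  filter_upwards [hdom, eventually_gt_atTop (1 : ℝ), Real.tendsto_log_atTop.eventually_ge_atTop 1] with T h1 hT hL w hw
  have hT0 : 0 < T := by linarith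
  have hL0 : 0 < Real.log T := by linarith
  have h2 := h1 (x * Real.log T - 2) (y * Real.log T + 1) w (by nlinarith) (by nlinarith) hw
  have hpos : 0 < (T * Real.log T ^ 2 * II W)⁻¹ := by positivity
  refine (mul_le_mul_of_nonneg_left h2 hpos.le).trans (le_of_eq ?_)
  field_simp

/-- finite sums of `Mq` -/
theorem Mq_sum (hRH : RiemannHypothesis) {W : ℝ → ℝ} (hW : EB W (1 / 8)) {N : ℕ} {y : ℕ → ℝ} {x k M κ : ℝ}
    (hk : 0 < k) (hy : ∀ j ∈ Finset.range N, x < y j) (hM : 0 ≤ M) (hκ : 0 < κ)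
    (hF : ∀ᶠ t : ℝ in atTop, ∑ j ∈ Finset.range N, ∫ α in (x - k)..(y j + k), FF α t ≤ M) :
    ∀ᶠ T : ℝ in atTop, ∑ j ∈ Finset.range N, (Real.pi * (T * Real.log T ^ 2) * II W)⁻¹ *
      Mq W (x * Real.log T - 2) (y j * Real.log T + 1) T ≤ M + 2 * κ := by
  have hII : 0 < II W := II_pos hW (by norm_num)
  have hpi := Real.pi_pos
  -- the sum
  set S : ℝ → ℝ → ℝ := fun T w => ∑ j ∈ Finset.range N, (T * Real.log T ^ 2 * II W)⁻¹ *
    AC W (x * Real.log T - 2) (y j * Real.log T + 1) (w * T) with hS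
  have hSc : ∀ T, Continuous (S T) := by
    intro T
    rw [hS]
    apply continuous_finsetSum
    intro j _
    have h2 := AC_cont hW.es (by norm_num : (1 / 8 : ℝ) ≤ 3 / 4)
    have h3 : Continuous (fun w : ℝ => AC W (x * Real.log T - 2) (y j * Real.log T + 1) (w * T)) :=
      h2.comp (by fun_prop : Continuous (fun w : ℝ => ((x * Real.log T - 2, y j * Real.log T + 1, w * T) : ℝ × ℝ × ℝ)))
    fun_prop
  have hmeas : ∀ T, Measurable (fun w : ℝ => qq w * max (S T w - w * (M + κ)) 0) := by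
    intro T
    have h1 : Continuous (fun w : ℝ => S T w - w * (M + κ)) := by
      have := hSc T
      fun_prop
    exact qq_meas.mul (h1.measurable.max measurable_const)
  -- domination
  obtain ⟨C, hC, hdom⟩ : ∃ C : ℝ, 0 ≤ C ∧ ∀ᶠ T : ℝ in atTop, ∀ w : ℝ, 0 < w → S T w ≤ C * (√w + w * √w) := by
    have h1 : ∀ j : ℕ, ∃ C : ℝ, 0 ≤ C ∧ (j ∈ Finset.range N → ∀ᶠ T : ℝ in atTop, ∀ w : ℝ, 0 < w →
        (T * Real.log T ^ 2 * II W)⁻¹ * AC W (x * Real.log T - 2) (y j * Real.log T + 1) (w * T) ≤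
          C * (√w + w * √w)) := by
      intro j
      by_cases hj : j ∈ Finset.range N
      · obtain ⟨C, hC, h⟩ := AC_dom' hRH hW (hy j hj)
        exact ⟨C, hC, fun _ => h⟩
      · exact ⟨0, le_rfl, fun h => absurd h hj⟩
    choose C hC hCd using h1
    refine ⟨∑ j ∈ Finset.range N, C j, Finset.sum_nonneg fun j _ => hC j, ?_⟩
    have h2 : ∀ᶠ T : ℝ in atTop, ∀ j ∈ Finset.range N, ∀ w : ℝ, 0 < w →
        (T * Real.log T ^ 2 * II W)⁻¹ * AC W (x * Real.log T - 2) (y j * Real.log T + 1) (w * T) ≤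
          C j * (√w + w * √w) := (Finset.eventually_all _).2 fun j hj => hCd j hj
    filter_upwards [h2] with T h3 w hw
    rw [Finset.sum_mul]
    exact Finset.sum_le_sum fun j hj => h3 j hj w hw
  -- the pointwise bound
  have hpt : ∀ w : ℝ, 0 < w → ∀ᶠ T : ℝ in atTop, S T w ≤ w * (M + κ) := by
    intro w hw
    obtain ⟨ε, hε, hε1⟩ : ∃ ε : ℝ, 0 < ε ∧ w * (ε * M) + N * ε ≤ w * κ := by
      refine ⟨w * κ / (w * M + N + 1), by positivity, ?_⟩
      have h1 : w * (w * κ / (w * M + N + 1) * M) + N * (w * κ / (w * M + N + 1)) =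
          w * κ * ((w * M + N) / (w * M + N + 1)) := by
        field_simp
      rw [h1]
      have h2 : (w * M + N) / (w * M + N + 1) ≤ 1 := by
        rw [div_le_one (by positivity)]
        linarith
      have h3 : 0 ≤ w * κ := by positivity
      nlinarith
    have h2 : ∀ᶠ T : ℝ in atTop, ∀ j ∈ Finset.range N, (T * Real.log T ^ 2 * II W)⁻¹ *
        AC W (x * Real.log T - 2) (y j * Real.log T + 1) (w * T) ≤
          w * ((1 + ε) * ∫ α in (x - k)..(y j + k), FF α (w * T)) + ε :=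
      (Finset.eventually_all _).2 fun j hj => AC_FF hRH hW hk (hy j hj) hε hw
    have hwT : Tendsto (fun T : ℝ => w * T) atTop atTop := tendsto_id.const_mul_atTop hw
    filter_upwards [h2, hwT.eventually hF] with T h3 h4
    calc S T w ≤ ∑ j ∈ Finset.range N, (w * ((1 + ε) * ∫ α in (x - k)..(y j + k), FF α (w * T)) + ε) :=
          Finset.sum_le_sum fun j hj => h3 j hj
      _ = w * ((1 + ε) * ∑ j ∈ Finset.range N, ∫ α in (x - k)..(y j + k), FF α (w * T)) + N * ε := by
          rw [Finset.sum_add_distrib, Finset.mul_sum, Finset.mul_sum, Finset.sum_const, Finset.card_range, nsmul_eq_mul]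
      _ ≤ w * ((1 + ε) * M) + N * ε := by gcongr
      _ ≤ w * (M + κ) := by linarith
  have hint : IntegrableOn (fun w : ℝ => C * (qq w * (√w + w * √w))) (Ioi 0) := qq_int.const_mul C
  have hMκ : 0 < M + κ := by linarith
  have hbnd : ∀ᶠ T : ℝ in atTop, ∀ᵐ w ∂(volume.restrict (Ioi (0 : ℝ))),
      ‖qq w * max (S T w - w * (M + κ)) 0‖ ≤ C * (qq w * (√w + w * √w)) := by
    filter_upwards [hdom] with T h1
    refine (ae_restrict_iff' measurableSet_Ioi).2 (Filter.Eventually.of_forall fun w hw => ?_)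
    have hw0 : 0 < w := hw
    have h2 := h1 w hw0
    have hq : 0 ≤ qq w := qq_nonneg hw0.le
    rw [Real.norm_of_nonneg (mul_nonneg hq (le_max_right _ _))]
    have h3 : max (S T w - w * (M + κ)) 0 ≤ C * (√w + w * √w) := by
      apply max_le
      · have : 0 < w * (M + κ) := mul_pos hw0 hMκ
        linarith
      · positivity
    calc qq w * max (S T w - w * (M + κ)) 0 ≤ qq w * (C * (√w + w * √w)) := mul_le_mul_of_nonneg_left h3 hq
      _ = C * (qq w * (√w + w * √w)) := by ring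
  have hG : Tendsto (fun T : ℝ => ∫ w in Ioi (0 : ℝ), qq w * max (S T w - w * (M + κ)) 0) atTop
      (𝓝 (∫ w in Ioi (0 : ℝ), (0 : ℝ))) := by
    apply tendsto_integral_filter_of_dominated_convergence (fun w => C * (qq w * (√w + w * √w)))
    · exact Filter.Eventually.of_forall fun T => (hmeas T).aestronglyMeasurable
    · exact hbnd
    · exact hint
    · refine (ae_restrict_iff' measurableSet_Ioi).2 (Filter.Eventually.of_forall fun w hw => ?_)
      have hw0 : 0 < w := hw
      apply tendsto_const_nhds.congr'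
      filter_upwards [hpt w hw0] with T h1
      rw [max_eq_right (by linarith), mul_zero]
  rw [integral_zero] at hG
  have hsm := hG.eventually_lt_const (mul_pos hpi hκ)
  filter_upwards [hsm, hbnd, eventually_gt_atTop (1 : ℝ), Real.tendsto_log_atTop.eventually_ge_atTop 1]
    with T h1 h2 hT hL
  have hT0 : 0 < T := by linarith
  have hL0 : 0 < Real.log T := by linarith
  have hGi : Integrable (fun w : ℝ => qq w * max (S T w - w * (M + κ)) 0) (volume.restrict (Ioi (0 : ℝ))) :=
    Integrable.mono' hint (hmeas T).aestronglyMeasurable h2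
  have hwi : Integrable (fun w : ℝ => (M + κ) * (qq w * w)) (volume.restrict (Ioi (0 : ℝ))) :=
    qq_w_int.const_mul _
  have hpos : 0 < (T * Real.log T ^ 2 * II W)⁻¹ := by positivity
  have hSn : ∀ w : ℝ, 0 < w → 0 ≤ S T w := by
    intro w hw
    refine Finset.sum_nonneg fun j hj => mul_nonneg hpos.le (AC_nonneg W ?_ (by positivity))
    have := hy j hj
    nlinarith
  have hmain : (∫ w in Ioi (0 : ℝ), qq w * S T w) ≤
      ∫ w in Ioi (0 : ℝ), ((M + κ) * (qq w * w) + qq w * max (S T w - w * (M + κ)) 0) := by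
    apply integral_mono_of_nonneg
    · refine (ae_restrict_iff' measurableSet_Ioi).2 (Filter.Eventually.of_forall fun w hw => ?_)
      have hw0 : 0 < w := hw
      exact mul_nonneg (qq_nonneg hw0.le) (hSn w hw0)
    · exact hwi.add hGi
    · refine (ae_restrict_iff' measurableSet_Ioi).2 (Filter.Eventually.of_forall fun w hw => ?_)
      have hw0 : 0 < w := hw
      have hq : 0 ≤ qq w := qq_nonneg hw0.le
      have h3 : S T w ≤ w * (M + κ) + max (S T w - w * (M + κ)) 0 := by
        have := le_max_left (S T w - w * (M + κ)) 0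
        linarith
      have h4 := mul_le_mul_of_nonneg_left h3 hq
      refine h4.trans (le_of_eq ?_)
      ring
  rw [integral_add hwi hGi, integral_const_mul, qq_w_eq] at hmain
  have heq : ∑ j ∈ Finset.range N, (Real.pi * (T * Real.log T ^ 2) * II W)⁻¹ *
      Mq W (x * Real.log T - 2) (y j * Real.log T + 1) T = Real.pi⁻¹ * ∫ w in Ioi (0 : ℝ), qq w * S T w := by
    have h5 : ∫ w in Ioi (0 : ℝ), qq w * S T w = ∑ j ∈ Finset.range N, (T * Real.log T ^ 2 * II W)⁻¹ *
        Mq W (x * Real.log T - 2) (y j * Real.log T + 1) T := by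
      have e : ∀ w : ℝ, qq w * S T w = ∑ j ∈ Finset.range N, (T * Real.log T ^ 2 * II W)⁻¹ *
          (qq w * AC W (x * Real.log T - 2) (y j * Real.log T + 1) (w * T)) := by
        intro w
        rw [hS, Finset.mul_sum]
        refine Finset.sum_congr rfl fun j _ => ?_
        ring
      simp only [e]
      rw [integral_finsetSum _ fun j _ => (Mq_ii hRH hW.es (by norm_num) hT0.le).const_mul _]
      refine Finset.sum_congr rfl fun j _ => ?_
      rw [integral_const_mul]
      rfl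
    rw [h5, Finset.mul_sum]
    refine Finset.sum_congr rfl fun j _ => ?_
    have h6 : (Real.pi * (T * Real.log T ^ 2) * II W)⁻¹ = Real.pi⁻¹ * (T * Real.log T ^ 2 * II W)⁻¹ := by
      field_simp
    rw [h6, mul_assoc]
  rw [heq, inv_mul_le_iff₀ hpi]
  nlinarith

end Pool.Agent.Lib.MP_2a816b_nt.LM
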