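import Pool.Agent.Lib.MP_2a816b_nt.LM.Kern
import Pool.Agent.Lib.MP_2a816b_nt.LM.Trans
import Pool.Agent.Lib.MP_2a816b_nt.LM.Lower

/-!
# Long means of the normalised variance: the upper bound under the Riemann Hypothesis
-/

open Set Filter Topology MeasureTheory

namespace Pool.Agent.Lib.MP_2a816b_nt.LM

open Pool.Agent.Lib.MP_00e05b_nt Pool.Agent.Lib.MP_00e05b_nt.Mont Pool.Agent.Lib.MP_2a816b_nt.PV

/-- the weighted integral against a Riemann sum of the primitive, from above -/
theorem riemann_up {g : ℝ → ℝ} (hg : ∀ x y : ℝ, IntervalIntegrable g volume x y) (hg0 : ∀ x, 0 ≤ g x) {b h : ℝ}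
    (hh : 0 ≤ h) (n : ℕ) :
    ∫ α in b..(b + n * h), (b + n * h - α) * g α ≤
      ∑ j ∈ Finset.range n, h * ∫ α in b..(b + (j + 1) * h), g α := by
  have hwg : ∀ A x y : ℝ, IntervalIntegrable (fun α => (A - α) * g α) volume x y := fun A x y =>
    (hg x y).continuousOn_mul (by fun_prop)
  induction n with
  | zero => simp
  | succ n ih =>
      rw [Finset.sum_range_succ]
      have e : b + ((n + 1 : ℕ) : ℝ) * h = b + n * h + h := by push_cast; ring
      rw [e]
      have h0 : b ≤ b + n * h := by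
        have : 0 ≤ (n : ℝ) * h := by positivity
        linarith
      have h1 : ∫ α in b..(b + n * h + h), (b + n * h + h - α) * g α =
          (∫ α in b..(b + n * h), (b + n * h - α) * g α) + h * (∫ α in b..(b + n * h), g α) +
            ∫ α in (b + n * h)..(b + n * h + h), (b + n * h + h - α) * g α := by
        rw [← intervalIntegral.integral_add_adjacent_intervals (hwg _ b (b + n * h)) (hwg _ (b + n * h) (b + n * h + h))]
        congr 1
        rw [← intervalIntegral.integral_const_mul, ← intervalIntegral.integral_add (hwg _ _ _) ((hg _ _).const_mul _)]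
        congr 1
        funext α
        ring
      have h2 : ∫ α in (b + n * h)..(b + n * h + h), (b + n * h + h - α) * g α ≤
          h * ∫ α in (b + n * h)..(b + n * h + h), g α := by
        rw [← intervalIntegral.integral_const_mul]
        refine intervalIntegral.integral_mono_on (by linarith) (hwg _ _ _) ((hg _ _).const_mul _) fun α hα => ?_
        exact mul_le_mul_of_nonneg_right (by linarith [hα.1]) (hg0 α)
      have h3 : ∫ α in b..(b + ((n : ℝ) + 1) * h), g α =
          (∫ α in b..(b + n * h), g α) + ∫ α in (b + n * h)..(b + n * h + h), g α := by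
        rw [intervalIntegral.integral_add_adjacent_intervals (hg _ _) (hg _ _)]
        congr 1
        ring
      rw [h1, h3, mul_add]
      linarith

/-- and from below -/
theorem riemann_low {g : ℝ → ℝ} (hg : ∀ x y : ℝ, IntervalIntegrable g volume x y) (hg0 : ∀ x, 0 ≤ g x) {c h : ℝ}
    (hc : 0 ≤ c) (hh : 0 ≤ h) (n : ℕ) :
    ∑ j ∈ Finset.range n, h * ∫ α in (0 : ℝ)..(c + j * h), g α ≤
      ∫ α in (0 : ℝ)..(c + n * h), (c + n * h - α) * g α := by
  have hwg : ∀ A x y : ℝ, IntervalIntegrable (fun α => (A - α) * g α) volume x y := fun A x y =>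
    (hg x y).continuousOn_mul (by fun_prop)
  induction n with
  | zero =>
      simp only [Finset.range_zero, Finset.sum_empty, Nat.cast_zero, zero_mul, add_zero]
      exact intervalIntegral.integral_nonneg hc fun α hα => mul_nonneg (by linarith [hα.2]) (hg0 α)
  | succ n ih =>
      rw [Finset.sum_range_succ]
      have e : c + ((n + 1 : ℕ) : ℝ) * h = c + n * h + h := by push_cast; ring
      rw [e]
      have h1 : ∫ α in (0 : ℝ)..(c + n * h + h), (c + n * h + h - α) * g α =
          (∫ α in (0 : ℝ)..(c + n * h), (c + n * h - α) * g α) + h * (∫ α in (0 : ℝ)..(c + n * h), g α) +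
            ∫ α in (c + n * h)..(c + n * h + h), (c + n * h + h - α) * g α := by
        rw [← intervalIntegral.integral_add_adjacent_intervals (hwg _ 0 (c + n * h)) (hwg _ (c + n * h) (c + n * h + h))]
        congr 1
        rw [← intervalIntegral.integral_const_mul, ← intervalIntegral.integral_add (hwg _ _ _) ((hg _ _).const_mul _)]
        congr 1
        funext α
        ring
      have h2 : 0 ≤ ∫ α in (c + n * h)..(c + n * h + h), (c + n * h + h - α) * g α :=
        intervalIntegral.integral_nonneg (by linarith) fun α hα => mul_nonneg (by linarith [hα.2]) (hg0 α)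
      rw [h1]
      linarith

/-- Under the Riemann Hypothesis long means are at most `4/3` up to small errors. -/
theorem upper_true (hRH : RiemannHypothesis) {b η : ℝ} (hb : 1 ≤ b) (hη : 0 < η) :
    ∃ l0 : ℝ, 0 < l0 ∧ ∀ l : ℝ, l0 ≤ l → ∀ᶠ T : ℝ in atTop, MM b l T ≤ 4 / 3 + η := by
  wlog hη1 : η ≤ 1 generalizing η with H
  · obtain ⟨l0, hl0, h⟩ := H one_pos le_rfl
    refine ⟨l0, hl0, fun l hl => ?_⟩
    filter_upwards [h l hl] with T hT
    linarith
  obtain ⟨W, hW⟩ := exists_EB (1 / 8) (by norm_num)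
  -- parameters
  set N : ℕ := ⌈32 / η⌉₊ with hN
  have hN1 : 32 / η ≤ N := Nat.le_ceil _
  have hN0 : (0 : ℝ) < N := lt_of_lt_of_le (by positivity) hN1
  have hNpos : 0 < N := by exact_mod_cast hN0
  refine ⟨max (32 * (b + 1) / η) (16 / η), by positivity, fun l hl => ?_⟩
  have hl1 : 32 * (b + 1) / η ≤ l := (le_max_left _ _).trans hl
  have hl2 : 16 / η ≤ l := (le_max_right _ _).trans hl
  have hl0 : 0 < l := lt_of_lt_of_le (by positivity) hl2
  have hl16 : 16 ≤ l := by
    refine le_trans ?_ hl2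
    rw [le_div_iff₀ hη]
    linarith
  set h : ℝ := l / N with hh
  have hh0 : 0 < h := by positivity
  have hNh : (N : ℝ) * h = l := by rw [hh]; field_simp
  set A : ℝ := b + h + 1 / 4 + N * h with hA
  have hA1 : 1 ≤ A := by
    have : 0 ≤ (N : ℝ) * h := by positivity
    linarith
  have hA0 : 0 < A := by linarith
  set M : ℝ := (A ^ 2 / 2 * (4 / 3 + η / 8) + 2) / h with hM
  have hM0 : 0 ≤ M := by positivity
  -- the bound for `FF`
  have hF : ∀ᶠ t : ℝ in atTop, ∑ j ∈ Finset.range N, ∫ α in (b - 1 / 2 - 1 / 4)..(b + ((j : ℝ) + 1) * h + 1 / 4), FF α t ≤ M := by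
    filter_upwards [F_long hRH (ε := η / 8) (by positivity), eventually_gt_atTop (1 : ℝ)] with t h1 ht
    have hc := FF_continuous (T := t) (by linarith)
    have hg : ∀ x y : ℝ, IntervalIntegrable (fun α => FF α t) volume x y := fun x y => hc.intervalIntegrable _ _
    have hg0 : ∀ x, 0 ≤ FF x t := fun x => FF_nonneg ht x
    have h2 := riemann_low hg hg0 (c := b + h + 1 / 4) (h := h) (by linarith) hh0.le N
    have h3 : ∑ j ∈ Finset.range N, h * ∫ α in (b - 1 / 2 - 1 / 4)..(b + ((j : ℝ) + 1) * h + 1 / 4), FF α t ≤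
        ∑ j ∈ Finset.range N, h * ∫ α in (0 : ℝ)..(b + h + 1 / 4 + j * h), FF α t := by
      refine Finset.sum_le_sum fun j _ => mul_le_mul_of_nonneg_left ?_ hh0.le
      have e : b + ((j : ℝ) + 1) * h + 1 / 4 = b + h + 1 / 4 + j * h := by ring
      rw [e]
      have hj : 0 ≤ (j : ℝ) * h := by positivity
      apply intervalIntegral.integral_mono_interval (by linarith) (by linarith) le_rfl
      · exact Eventually.of_forall fun α => hg0 α
      · exact hg _ _
    have h4 := h1 A hA1
    have h5 : ∫ α in (0 : ℝ)..A, FF α t * (1 - α / A) = (1 / A) * ∫ α in (0 : ℝ)..A, (A - α) * FF α t := by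
      rw [← intervalIntegral.integral_const_mul]
      congr 1
      funext α
      field_simp
    rw [h5] at h4
    have h6 : ∫ α in (0 : ℝ)..A, (A - α) * FF α t ≤ A ^ 2 / 2 * (4 / 3 + η / 8) + 2 := by
      have h7 : 2 / A * (1 / A * ∫ α in (0 : ℝ)..A, (A - α) * FF α t) = (2 / A ^ 2) * ∫ α in (0 : ℝ)..A, (A - α) * FF α t := by
        field_simp
      rw [h7, div_mul_eq_mul_div, div_le_iff₀ (by positivity)] at h4
      have h8 : (4 / 3 + η / 8 + 4 / A ^ 2 * (7 / 12 + η / 8)) * A ^ 2 =
          A ^ 2 * (4 / 3 + η / 8) + 4 * (7 / 12 + η / 8) := by field_simp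
      rw [h8] at h4
      linarith
    rw [hM, le_div_iff₀ hh0, mul_comm, Finset.mul_sum]
    exact h3.trans (h2.trans h6)
  have hS := S_upper hRH hW (δ := 1 / 2) (κ := 1 / l) (B := b + l) (by norm_num) (by norm_num) (by positivity)
  have hMq := Mq_sum hRH hW (N := N) (y := fun j => b + ((j : ℝ) + 1) * h) (x := b - 1 / 2) (k := 1 / 4) (M := M)
    (κ := 1 / (2 * h)) (by norm_num) (fun j _ => by
      have : 0 ≤ ((j : ℝ) + 1) * h := by positivity
      linarith) hM0 (by positivity) hF
  filter_upwards [hS, hMq, eventually_ge_atTop (2 : ℝ)] with T h1 h2 hT2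
  have hii : ∀ x y : ℝ, IntervalIntegrable (fun α => RR α T) volume x y := by
    intro x y
    rcases le_total x y with h | h
    · exact (star_avg hT2 h).1
    · exact (star_avg hT2 h).1.symm
  have h3 := riemann_up hii (fun x => RR_nonneg hT2 x) (b := b) hh0.le N
  rw [hNh] at h3
  have h4 : ∑ j ∈ Finset.range N, h * ∫ α in b..(b + ((j : ℝ) + 1) * h), RR α T ≤
      ∑ j ∈ Finset.range N, h * ((Real.pi * (T * Real.log T ^ 2) * II W)⁻¹ *
        Mq W ((b - 1 / 2) * Real.log T - 2) ((b + ((j : ℝ) + 1) * h) * Real.log T + 1) T + 1 / l) := by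
    refine Finset.sum_le_sum fun j hj => mul_le_mul_of_nonneg_left ?_ hh0.le
    have hj1 : ((j : ℝ) + 1) ≤ N := by
      have := Finset.mem_range.1 hj
      exact_mod_cast this
    have hj2 : 0 ≤ ((j : ℝ) + 1) * h := by positivity
    have hj3 : ((j : ℝ) + 1) * h ≤ l := by
      rw [← hNh]
      exact mul_le_mul_of_nonneg_right hj1 hh0.le
    exact h1 b (b + ((j : ℝ) + 1) * h) hb (by linarith) (by linarith)
  have h5 : ∑ j ∈ Finset.range N, h * ((Real.pi * (T * Real.log T ^ 2) * II W)⁻¹ *
        Mq W ((b - 1 / 2) * Real.log T - 2) ((b + ((j : ℝ) + 1) * h) * Real.log T + 1) T + 1 / l) ≤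
      h * (M + 2 * (1 / (2 * h))) + 1 := by
    have e : ∑ j ∈ Finset.range N, h * ((Real.pi * (T * Real.log T ^ 2) * II W)⁻¹ *
        Mq W ((b - 1 / 2) * Real.log T - 2) ((b + ((j : ℝ) + 1) * h) * Real.log T + 1) T + 1 / l) =
        h * (∑ j ∈ Finset.range N, (Real.pi * (T * Real.log T ^ 2) * II W)⁻¹ *
        Mq W ((b - 1 / 2) * Real.log T - 2) ((b + ((j : ℝ) + 1) * h) * Real.log T + 1) T) + N * (h * (1 / l)) := by
      simp only [mul_add]
      rw [Finset.sum_add_distrib, Finset.mul_sum, Finset.sum_const, Finset.card_range, nsmul_eq_mul]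
    rw [e]
    have e2 : (N : ℝ) * (h * (1 / l)) = 1 := by
      rw [← mul_assoc, hNh]
      field_simp
    rw [e2]
    have := mul_le_mul_of_nonneg_left h2 hh0.le
    linarith
  have h6 : h * (M + 2 * (1 / (2 * h))) + 1 = A ^ 2 / 2 * (4 / 3 + η / 8) + 4 := by
    rw [hM]
    field_simp
    ring
  have h7 : ∫ α in b..(b + l), (b + l - α) * RR α T ≤ A ^ 2 / 2 * (4 / 3 + η / 8) + 4 := by
    rw [← h6]
    exact h3.trans (h4.trans h5)
  -- the numbers
  set s : ℝ := η / 16 with hs
  have hAl : A ≤ (1 + s) * l := by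
    have h8 : h ≤ η / 32 * l := by
      rw [hh, div_le_iff₀ hN0]
      have h9 : 1 ≤ η / 32 * N := by
        rw [div_le_iff₀ hη] at hN1
        linarith
      nlinarith
    have h10 : b + 1 ≤ η / 32 * l := by
      rw [div_le_iff₀ hη] at hl1
      linarith
    rw [hA, hNh, hs]
    linarith
  have hA2 : A ^ 2 ≤ (1 + 3 * s) * l ^ 2 := by
    have h8 : A ^ 2 ≤ ((1 + s) * l) ^ 2 := pow_le_pow_left₀ hA0.le hAl 2
    have h9 : ((1 + s) * l) ^ 2 ≤ (1 + 3 * s) * l ^ 2 := by
      rw [mul_pow]
      apply mul_le_mul_of_nonneg_right _ (by positivity)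
      have : 0 < s := by positivity
      have : s ≤ 1 := by rw [hs]; linarith
      nlinarith
    exact h8.trans h9
  unfold MM
  have h8 : 2 / l ^ 2 * ∫ α in b..(b + l), (b + l - α) * RR α T ≤ 2 / l ^ 2 * ((1 + 3 * s) * l ^ 2 / 2 * (4 / 3 + η / 8) + 4) := by
    apply mul_le_mul_of_nonneg_left _ (by positivity)
    refine h7.trans ?_
    gcongr
  have h9 : 2 / l ^ 2 * ((1 + 3 * s) * l ^ 2 / 2 * (4 / 3 + η / 8) + 4) = (1 + 3 * s) * (4 / 3 + η / 8) + 8 / l ^ 2 := by
    field_simp
    ring
  have h10 : 8 / l ^ 2 ≤ η / 32 := by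
    rw [div_le_iff₀ (by positivity)]
    have h11 : 16 ≤ η * l := by
      rw [div_le_iff₀ hη] at hl2
      linarith
    nlinarith
  rw [h9] at h8
  have h12 : (1 + 3 * s) * (4 / 3 + η / 8) + 8 / l ^ 2 ≤ 4 / 3 + η := by
    rw [hs]
    nlinarith
  exact h8.trans h12

end Pool.Agent.Lib.MP_2a816b_nt.LM
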